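import Pool.Agent.W181.WH.Stm

set_option maxHeartbeats 4000000

namespace Pool.Agent.W62.WS

open MeasureTheory Pool.Agent.W181.WH Matrix

/-- scaled coordinates -/
noncomputable def scv {m : ℕ} (x : Fin m → ℝ) (v : LIdx m → ℝ) : LIdx m → ℝ :=
  fun p => Real.exp (x p.1.1 - x p.1.2) * v p

lemma lM_scv {m : ℕ} (x : Fin m → ℝ) (v : LIdx m → ℝ) :
    lM (scv x v) = Matrix.diagonal (fun i => Real.exp (x i)) * lM v *
      Matrix.diagonal (fun i => Real.exp (-x i)) := by
  ext i j
  rw [Matrix.mul_diagonal, Matrix.diagonal_mul]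
  unfold lM scv
  split_ifs with h1 h2
  · simp only
    rw [sub_eq_add_neg, Real.exp_add]; ring
  · subst h2
    rw [mul_one, ← Real.exp_add]; simp
  · simp

lemma conj_scv {m : ℕ} (x : Fin m → ℝ) (v : LIdx m → ℝ) :
    lM (scv x v) * Dg x * (lM (scv x v)).transpose =
      Matrix.diagonal (fun i => Real.exp (x i)) * (lM v * Dg (fun _ => 0) * (lM v).transpose) *
        Matrix.diagonal (fun i => Real.exp (x i)) := by
  have h0 : (Dg (fun _ : Fin m => (0 : ℝ))) = 1 := by
    unfold Dg; simp
  have h1 : Matrix.diagonal (fun i => Real.exp (-x i)) * Dg x *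
      Matrix.diagonal (fun i => Real.exp (-x i)) = (1 : Matrix (Fin m) (Fin m) ℝ) := by
    unfold Dg
    rw [Matrix.diagonal_mul_diagonal, Matrix.diagonal_mul_diagonal, ← Matrix.diagonal_one]
    congr 1
    funext i
    rw [← Real.exp_add, ← Real.exp_add]
    simp
    ring
  rw [lM_scv, Matrix.transpose_mul, Matrix.transpose_mul, Matrix.diagonal_transpose,
    Matrix.diagonal_transpose, h0, mul_one]
  calc _ = Matrix.diagonal (fun i => Real.exp (x i)) * lM v *
        (Matrix.diagonal (fun i => Real.exp (-x i)) * Dg x *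
          Matrix.diagonal (fun i => Real.exp (-x i))) * (lM v).transpose *
        Matrix.diagonal (fun i => Real.exp (x i)) := by noncomm_ring
    _ = _ := by rw [h1]; noncomm_ring

lemma Bm_diag {m : ℕ} (d : Fin m → ℝ) (M : Matrix (Fin m) (Fin m) ℝ) (k : Fin m) :
    Bm (Matrix.diagonal d * M * Matrix.diagonal d) k = (∏ i ∈ Finset.Ici k, d i) ^ 2 * Bm M k := by
  have h1 : (Matrix.diagonal d * M * Matrix.diagonal d).submatrix
      (Subtype.val : {i : Fin m // k ≤ i} → Fin m) (Subtype.val : {i : Fin m // k ≤ i} → Fin m) =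
      Matrix.diagonal (fun i : {i : Fin m // k ≤ i} => d i) *
        (M.submatrix (Subtype.val : {i : Fin m // k ≤ i} → Fin m)
          (Subtype.val : {i : Fin m // k ≤ i} → Fin m)) *
        Matrix.diagonal (fun i : {i : Fin m // k ≤ i} => d i) := by
    ext i j
    simp [Matrix.mul_diagonal, Matrix.diagonal_mul]
  have h2 : ∏ i : {i : Fin m // k ≤ i}, d i = ∏ i ∈ Finset.Ici k, d i := by
    rw [← Finset.prod_subtype (Finset.Ici k) (fun i => by rw [Finset.mem_Ici])]
  unfold Bm
  rw [h1, Matrix.det_mul, Matrix.det_mul, Matrix.det_diagonal, h2]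
  ring

lemma Bm_pos {m : ℕ} {P : Matrix (Fin m) (Fin m) ℝ} (h : P.PosDef) (k : Fin m) : 0 < Bm P k := by
  have := h.submatrix (e := (Subtype.val : {i : Fin m // k ≤ i} → Fin m))
    Subtype.val_injective
  exact this.det_pos

lemma norm_ch {m : ℕ} (v : LIdx m → ℝ) : ‖ch v‖ = 1 := by
  unfold ch
  rw [Complex.norm_exp]
  simp

theorem t_scal : S_CHOL → S_SCAL := by
  intro hC m μ x
  have hpos : ∀ (y : Fin (m + 1) → ℝ) (v : LIdx (m + 1) → ℝ) (k : Fin (m + 1)),
      0 < Bm (lM v * Dg y * (lM v).transpose) k := by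
    intro y v k
    have h1 := ((hC (m + 1)).2.1 (fun i => Real.exp (y i), v) (fun i => Real.exp_pos _)).2
    have h2 : MU (fun i => Real.exp (y i), v) = lM v * Dg y * (lM v).transpose := by
      unfold MU Dg
      simp only
      congr 3
      funext i
      rw [← Real.exp_nat_mul]; norm_cast
    rw [h2] at h1
    exact Bm_pos h1 k
  have hn : ∀ (y : Fin (m + 1) → ℝ) (v : LIdx (m + 1) → ℝ), ‖JnI μ y v‖ =
      ∏ k : Fin m, (Bm (lM v * Dg y * (lM v).transpose) k.succ) ^ (-(μ k).re / 2) := by
    intro y v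
    unfold JnI
    rw [norm_mul, norm_ch, mul_one, norm_prod]
    apply Finset.prod_congr rfl
    intro k _
    rw [Complex.norm_cpow_eq_rpow_re_of_pos (hpos y v _)]
    congr 1
    simp
  have hscale : ∀ v : LIdx (m + 1) → ℝ, ‖JnI μ x (scv x v)‖ =
      Real.exp (-∑ k : Fin m, (μ k).re * ∑ i ∈ Finset.Ici k.succ, x i) *
        ‖JnI μ (fun _ => 0) v‖ := by
    intro v
    rw [hn, hn, ← Finset.sum_neg_distrib, Real.exp_sum, ← Finset.prod_mul_distrib]
    apply Finset.prod_congr rfl
    intro k _
    rw [conj_scv, Bm_diag, Real.mul_rpow (by positivity) (hpos _ _ _).le]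
    congr 1
    rw [← Real.exp_sum, ← Real.exp_nat_mul, ← Real.exp_mul]
    congr 1
    push_cast
    ring
  -- change of variables
  set D : LIdx (m + 1) → ℝ := fun p => Real.exp (x p.1.1 - x p.1.2) with hD
  have hdet : (Matrix.diagonal D).det ≠ 0 := by
    rw [Matrix.det_diagonal]
    exact (Finset.prod_pos (fun p _ => Real.exp_pos _)).ne'
  have hmap := Real.smul_map_diagonal_volume_pi hdet
  have hlin : ∀ v, Matrix.toLin' (Matrix.diagonal D) v = scv x v := by
    intro v
    funext p
    rw [Matrix.toLin'_apply, Matrix.mulVec_diagonal]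
    rfl
  have hdetv : |(Matrix.diagonal D).det| = Real.exp (∑ p : LIdx (m + 1), (x p.1.1 - x p.1.2)) := by
    rw [Matrix.det_diagonal, Real.exp_sum, abs_of_pos (Finset.prod_pos (fun p _ => Real.exp_pos _))]
  have hemb : MeasurableEmbedding (Matrix.toLin' (Matrix.diagonal D)) := by
    have hinj : Function.Injective (Matrix.toLin' (Matrix.diagonal D)) := by
      intro v w h
      rw [hlin, hlin] at h
      funext p
      have := congrFun h p
      unfold scv at this
      exact mul_left_cancel₀ (Real.exp_pos _).ne' this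
    exact (LinearMap.continuous_of_finiteDimensional _).measurableEmbedding hinj
  calc ∫⁻ v, ‖JnI μ x v‖ₑ
      = ∫⁻ v, ‖JnI μ x v‖ₑ ∂(ENNReal.ofReal |(Matrix.diagonal D).det| •
          Measure.map (Matrix.toLin' (Matrix.diagonal D)) volume) := by rw [hmap]
    _ = ENNReal.ofReal |(Matrix.diagonal D).det| * ∫⁻ v, ‖JnI μ x (scv x v)‖ₑ := by
        rw [lintegral_smul_measure, hemb.lintegral_map, smul_eq_mul]
        simp only [hlin]
    _ = ENNReal.ofReal |(Matrix.diagonal D).det| *
          (ENNReal.ofReal (Real.exp (-∑ k : Fin m, (μ k).re * ∑ i ∈ Finset.Ici k.succ, x i)) *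
            ∫⁻ v, ‖JnI μ (fun _ => 0) v‖ₑ) := by
        congr 1
        rw [← lintegral_const_mul' _ _ ENNReal.ofReal_ne_top]
        apply lintegral_congr
        intro v
        rw [← ofReal_norm, ← ofReal_norm, hscale,
          ENNReal.ofReal_mul (Real.exp_pos _).le]
    _ = _ := by
        rw [← mul_assoc, ← ENNReal.ofReal_mul (abs_nonneg _), hdetv, ← Real.exp_add]
        congr 3

end Pool.Agent.W62.WS
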