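import Pool.Agent.W62.WS.Cont

set_option maxHeartbeats 4000000

namespace Pool.Agent.W62.WS

open Polynomial

variable {R : Type} [Ring R]

/-- the continuant as a polynomial -/
noncomputable def DP (p T : ℕ → R) (k : ℕ) : R[X] := Dn X (fun i => C (p i)) (fun i => C (T i)) k

lemma DP_succ (p T : ℕ → R) (k : ℕ) :
    DP p T (k + 2) = DP p T (k + 1) * (X + C (p (k + 1))) + DP p T k * C (T k) := rfl

lemma map_Dn {S : Type} [Ring S] (f : R →+* S) (x : R) (p T : ℕ → R) :
    ∀ k, f (Dn x p T k) = Dn (f x) (fun i => f (p i)) (fun i => f (T i)) k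
  | 0 => by simp [Dn]
  | 1 => by simp [Dn]
  | (k + 2) => by simp [Dn, map_Dn f x p T (k + 1), map_Dn f x p T k]

lemma ShiftRel.map {S : Type} [Ring S] (f : R →+* S) {p T : ℕ → R} (h : ShiftRel p T) :
    ShiftRel (fun i => f (p i)) (fun i => f (T i)) where
  pp i j := (h.pp i j).map f
  TT i j := (h.TT i j).map f
  T0 k := by rw [← map_mul, h.T0, map_mul, map_add, map_one]
  T1 k := by rw [← map_mul, h.T1, map_mul, map_sub, map_one]
  Tp k j h1 h2 := (h.Tp k j h1 h2).map f

lemma commute_coeff {p T : ℕ → R} {r : R} (k : ℕ) (h1 : ∀ i, i < k → Commute r (p i))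
    (h2 : ∀ i, i + 1 < k → Commute r (T i)) (c : ℕ) : Commute r ((DP p T k).coeff c) := by
  have := Dn_commute (x := (X : R[X])) (z := C r) (p := fun i => C (p i)) (T := fun i => C (T i))
    (Polynomial.commute_X (C r)).symm k (fun i hi => (h1 i hi).map C) (fun i hi => (h2 i hi).map C)
  have h3 := congrArg (fun q => coeff q c) this.eq
  simp only [coeff_C_mul, coeff_mul_C] at h3
  exact h3

theorem coeff_comm {p T : ℕ → R} (h : ShiftRel p T) (k i j : ℕ) :
    Commute ((DP p T k).coeff i) ((DP p T k).coeff j) := by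
  let f : R →+* R[X][X] := (C : R[X] →+* R[X][X]).comp C
  have hs := h.map f
  have cx : Cen (C X : R[X][X]) (fun i => f (p i)) (fun i => f (T i)) :=
    ⟨fun i => ((Polynomial.commute_X (C (p i))).map (C : R[X] →+* R[X][X])),
     fun i => ((Polynomial.commute_X (C (T i))).map (C : R[X] →+* R[X][X]))⟩
  have cy : Cen (X : R[X][X]) (fun i => f (p i)) (fun i => f (T i)) :=
    ⟨fun i => Polynomial.commute_X _, fun i => Polynomial.commute_X _⟩
  have key := Dn_comm hs cx cy (Polynomial.commute_X (C X : R[X][X])).symm k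
  have e1 : Dn (C X : R[X][X]) (fun i => f (p i)) (fun i => f (T i)) k = C (DP p T k) := by
    rw [DP, map_Dn]; rfl
  have e2 : Dn (X : R[X][X]) (fun i => f (p i)) (fun i => f (T i)) k =
      Polynomial.map (C : R →+* R[X]) (DP p T k) := by
    have := map_Dn (Polynomial.mapRingHom (C : R →+* R[X])) X (fun i => C (p i))
      (fun i => C (T i)) k
    rw [coe_mapRingHom] at this
    rw [DP, this]
    simp [f]
  rw [e1, e2] at key
  have h3 := congrArg (fun q => coeff (coeff q j) i) key.eq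
  simp only [coeff_C_mul, coeff_mul_C, coeff_map] at h3
  exact h3

/-- splitting at the edge `m` -/
theorem Dn_split (x : R) (p T : ℕ → R) (m : ℕ) : ∀ l,
    Dn x p T (m + 1 + (l + 1)) =
      Dn x p T (m + 1) * Dn x (fun i => p (m + 1 + i)) (fun i => T (m + 1 + i)) (l + 1) +
      Dn x p T m * T m * Dn x (fun i => p (m + 2 + i)) (fun i => T (m + 2 + i)) l
  | 0 => by
    change Dn x p T (m + 1) * (x + p (m + 1)) + Dn x p T m * T m = _
    simp [Dn]
  | 1 => by
    change Dn x p T (m + 1 + 1) * (x + p (m + 1 + 1)) + Dn x p T (m + 1) * T (m + 1) = _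
    change (Dn x p T (m + 1) * (x + p (m + 1)) + Dn x p T m * T m) * (x + p (m + 1 + 1)) +
      Dn x p T (m + 1) * T (m + 1) = _
    simp only [Dn, add_zero]
    rw [show m + 1 + 1 = m + 2 from rfl]
    noncomm_ring
  | (l + 2) => by
    have i0 := Dn_split x p T m l
    have i1 := Dn_split x p T m (l + 1)
    have e : Dn x p T (m + 1 + (l + 2 + 1)) = Dn x p T (m + 1 + (l + 1 + 1)) *
      (x + p (m + 1 + (l + 2))) + Dn x p T (m + 1 + (l + 1)) * T (m + 1 + (l + 1)) := rfl
    have e1 : Dn x (fun i => p (m + 1 + i)) (fun i => T (m + 1 + i)) (l + 2 + 1) =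
      Dn x (fun i => p (m + 1 + i)) (fun i => T (m + 1 + i)) (l + 1 + 1) *
        (x + p (m + 1 + (l + 2))) +
      Dn x (fun i => p (m + 1 + i)) (fun i => T (m + 1 + i)) (l + 1) * T (m + 1 + (l + 1)) := rfl
    have e2 : Dn x (fun i => p (m + 2 + i)) (fun i => T (m + 2 + i)) (l + 2) =
      Dn x (fun i => p (m + 2 + i)) (fun i => T (m + 2 + i)) (l + 1) *
        (x + p (m + 2 + (l + 1))) +
      Dn x (fun i => p (m + 2 + i)) (fun i => T (m + 2 + i)) l * T (m + 2 + l) := rfl
    rw [e, i0, i1, e1, e2, show m + 2 + (l + 1) = m + 1 + (l + 2) by ring,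
      show m + 2 + l = m + 1 + (l + 1) by ring]
    noncomm_ring

theorem DP_split (p T : ℕ → R) (m l : ℕ) :
    DP p T (m + 1 + (l + 1)) =
      DP p T (m + 1) * DP (fun i => p (m + 1 + i)) (fun i => T (m + 1 + i)) (l + 1) +
      DP p T m * C (T m) * DP (fun i => p (m + 2 + i)) (fun i => T (m + 2 + i)) l :=
  Dn_split X (fun i => C (p i)) (fun i => C (T i)) m l

/-- monic, degree, subleading coefficient -/
lemma DP_coeff_gt (p T : ℕ → R) : ∀ k c, k < c → (DP p T k).coeff c = 0
  | 0, c, h => by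
    have : DP p T 0 = 1 := rfl
    rw [this, coeff_one, if_neg (by omega)]
  | 1, c, h => by
    have : DP p T 1 = X + C (p 0) := rfl
    rw [this, coeff_add, coeff_X, coeff_C, if_neg (by omega), if_neg (by omega), add_zero]
  | (k + 2), c, h => by
    rw [DP_succ, mul_add, coeff_add, coeff_add, coeff_mul_C, coeff_mul_C,
      DP_coeff_gt p T (k + 1) c (by omega), DP_coeff_gt p T k c (by omega)]
    obtain ⟨c', rfl⟩ : ∃ c', c = c' + 1 := ⟨c - 1, by omega⟩
    rw [coeff_mul_X, DP_coeff_gt p T (k + 1) c' (by omega)]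
    simp

lemma DP_coeff_self (p T : ℕ → R) : ∀ k, (DP p T k).coeff k = 1
  | 0 => by
    have : DP p T 0 = 1 := rfl
    rw [this]; simp
  | 1 => by
    have : DP p T 1 = X + C (p 0) := rfl
    rw [this]; simp [coeff_X, coeff_C]
  | (k + 2) => by
    rw [DP_succ, mul_add, coeff_add, coeff_add, coeff_mul_C, coeff_mul_C,
      DP_coeff_gt p T (k + 1) (k + 2) (by omega), DP_coeff_gt p T k (k + 2) (by omega),
      coeff_mul_X, DP_coeff_self p T (k + 1)]
    simp

lemma DP_coeff_sub (p T : ℕ → R) : ∀ k, (DP p T (k + 1)).coeff k = ∑ i ∈ Finset.range (k + 1), p i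
  | 0 => by
    have : DP p T 1 = X + C (p 0) := rfl
    rw [this]; simp
  | (k + 1) => by
    rw [DP_succ, mul_add, coeff_add, coeff_add, coeff_mul_C, coeff_mul_C, coeff_mul_X,
      DP_coeff_sub p T k, DP_coeff_self p T (k + 1), DP_coeff_gt p T k (k + 1) (by omega),
      Finset.sum_range_succ _ (k + 1)]
    simp

end Pool.Agent.W62.WS
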