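import Pool.Agent.W62.WS.Alg1

set_option maxHeartbeats 4000000

namespace Pool.Agent.W62.WS

open Polynomial

/-- polynomials in `(s, α)` -/
abbrev PP (N : ℕ) := MvPolynomial (Fin N ⊕ Fin (N + 1)) ℂ
/-- functions of `(α, s)` -/
abbrev VV (N : ℕ) := (Fin (N + 1) → ℂ) → (Fin N → ℂ) → ℂ
abbrev RR (N : ℕ) := Module.End ℂ (VV N)

variable {N : ℕ}

/-- multiplication by a polynomial -/
noncomputable def opP : PP N →ₐ[ℂ] RR N where
  toFun P := { toFun := fun g a s => MvPolynomial.eval (Sum.elim s a) P * g a s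
               map_add' := fun g h => by funext a s; simp [mul_add]
               map_smul' := fun c g => by funext a s; simp; ring }
  map_one' := by ext g a s; simp
  map_mul' P Q := by ext g a s; simp [mul_assoc]
  map_zero' := by ext g a s; simp
  map_add' P Q := by ext g a s; simp [add_mul]
  commutes' c := by ext g a s; simp

lemma opP_apply (P : PP N) (g : VV N) (a : Fin (N + 1) → ℂ) (s : Fin N → ℂ) :
    opP P g a s = MvPolynomial.eval (Sum.elim s a) P * g a s := rfl

/-- shift by `σ` -/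
def opS (σ : Fin N → ℕ) : RR N where
  toFun g a s := g a (fun k => s k + (σ k : ℂ))
  map_add' g h := rfl
  map_smul' c g := rfl

lemma opS_apply (σ : Fin N → ℕ) (g : VV N) (a : Fin (N + 1) → ℂ) (s : Fin N → ℂ) :
    opS σ g a s = g a (fun k => s k + (σ k : ℂ)) := rfl

lemma opS_mul (σ τ : Fin N → ℕ) : (opS σ * opS τ : RR N) = opS (fun k => σ k + τ k) := by
  ext g a s
  simp only [Module.End.mul_apply, opS_apply]
  congr 1
  funext k
  push_cast
  ring

/-- the shifted polynomial -/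
noncomputable def shP (σ : Fin N → ℕ) : PP N →ₐ[ℂ] PP N :=
  MvPolynomial.aeval (Sum.elim (fun k => MvPolynomial.X (Sum.inl k) + MvPolynomial.C (σ k : ℂ))
    (fun j => MvPolynomial.X (Sum.inr j)))

lemma eval_shP (σ : Fin N → ℕ) (P : PP N) (a : Fin (N + 1) → ℂ) (s : Fin N → ℂ) :
    MvPolynomial.eval (Sum.elim s a) (shP σ P) =
      MvPolynomial.eval (Sum.elim (fun k => s k + (σ k : ℂ)) a) P := by
  have : (MvPolynomial.aeval (Sum.elim s a) : PP N →ₐ[ℂ] ℂ).comp (shP σ) =
      MvPolynomial.aeval (Sum.elim (fun k => s k + (σ k : ℂ)) a) := by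
    apply MvPolynomial.algHom_ext
    rintro (k | j) <;> simp [shP]
  have h2 := congrArg (fun f : PP N →ₐ[ℂ] ℂ => f P) this
  simpa [MvPolynomial.coe_aeval_eq_eval] using h2

lemma opS_opP (σ : Fin N → ℕ) (P : PP N) : (opS σ * opP P : RR N) = opP (shP σ P) * opS σ := by
  ext g a s
  simp only [Module.End.mul_apply, opS_apply, opP_apply, eval_shP]

lemma totalDegree_aeval_le {σ τ : Type} (f : σ → MvPolynomial τ ℂ) (hf : ∀ i, (f i).totalDegree ≤ 1)
    (P : MvPolynomial σ ℂ) : (MvPolynomial.aeval f P).totalDegree ≤ P.totalDegree := by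
  classical
  rw [MvPolynomial.aeval_def, MvPolynomial.eval₂_eq]
  apply MvPolynomial.totalDegree_finsetSum_le
  intro d hd
  refine (MvPolynomial.totalDegree_mul _ _).trans ?_
  have h1 : (algebraMap ℂ (MvPolynomial τ ℂ) (MvPolynomial.coeff d P)).totalDegree = 0 := by
    rw [MvPolynomial.algebraMap_eq, MvPolynomial.totalDegree_C]
  rw [h1, zero_add]
  refine (MvPolynomial.totalDegree_finsetProd _ _).trans ?_
  refine le_trans (Finset.sum_le_sum (fun i _ => ?_)) (MvPolynomial.le_totalDegree hd)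
  refine (MvPolynomial.totalDegree_pow _ _).trans ?_
  have := hf i
  nlinarith

lemma totalDegree_shP (σ : Fin N → ℕ) (P : PP N) : (shP σ P).totalDegree ≤ P.totalDegree := by
  apply totalDegree_aeval_le
  rintro (k | j)
  · simp only [Sum.elim_inl]
    refine (MvPolynomial.totalDegree_add _ _).trans ?_
    rw [MvPolynomial.totalDegree_C]
    simp
  · simp

/-- the generators of weight `≤ d` with the `j0`-th shift at least `e` -/
def gen (j0 : Fin N) (d e : ℕ) : Set (RR N) :=
  {B | ∃ (P : PP N) (σ : Fin N → ℕ), P.totalDegree + 2 * ∑ k, σ k ≤ d ∧ e ≤ σ j0 ∧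
    B = opP P * opS σ}

def Fd (j0 : Fin N) (d e : ℕ) : Submodule ℂ (RR N) := Submodule.span ℂ (gen j0 d e)

lemma Fd_mono (j0 : Fin N) {d d' e e' : ℕ} (hd : d ≤ d') (he : e' ≤ e) : Fd j0 d e ≤ Fd j0 d' e' := by
  apply Submodule.span_mono
  rintro B ⟨P, σ, h1, h2, h3⟩
  exact ⟨P, σ, h1.trans hd, he.trans h2, h3⟩

lemma Fd_mul (j0 : Fin N) {d d' e e' : ℕ} {L L' : RR N} (h : L ∈ Fd j0 d e) (h' : L' ∈ Fd j0 d' e') :
    L * L' ∈ Fd j0 (d + d') (e + e') := by
  have h1 : L * L' ∈ (Fd j0 d e) * (Fd j0 d' e') := Submodule.mul_mem_mul h h'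
  rw [Fd, Fd, Submodule.span_mul_span] at h1
  refine Submodule.span_le.mpr ?_ h1
  rintro B ⟨B1, ⟨P, σ, a1, a2, rfl⟩, B2, ⟨Q, τ, b1, b2, rfl⟩, rfl⟩
  apply Submodule.subset_span
  refine ⟨P * shP σ Q, fun k => σ k + τ k, ?_, ?_, ?_⟩
  · have := MvPolynomial.totalDegree_mul P (shP σ Q)
    have h3 := totalDegree_shP σ Q
    rw [Finset.sum_add_distrib]
    omega
  · exact Nat.add_le_add a2 b2
  · simp only
    rw [map_mul, ← opS_mul]
    calc opP P * opS σ * (opP Q * opS τ) = opP P * (opS σ * opP Q) * opS τ := by noncomm_ring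
      _ = _ := by rw [opS_opP]; noncomm_ring

lemma Fd_pow (j0 : Fin N) {d : ℕ} {L : RR N} (h : L ∈ Fd j0 d 0) (k : ℕ) :
    L ^ k ∈ Fd j0 (k * d) 0 := by
  induction k with
  | zero =>
    apply Submodule.subset_span
    refine ⟨1, fun _ => 0, by simp, by simp, ?_⟩
    ext g a s
    simp [opS_apply]
  | succ k ih =>
    rw [pow_succ]
    have := Fd_mul j0 ih h
    rwa [show k * d + d = (k + 1) * d by ring] at this

lemma opP_mem (j0 : Fin N) {P : PP N} {d : ℕ} (h : P.totalDegree ≤ d) : opP P ∈ Fd j0 d 0 := by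
  apply Submodule.subset_span
  refine ⟨P, fun _ => 0, by simpa using h, by simp, ?_⟩
  ext g a s
  simp [opP_apply, opS_apply]

lemma one_mem_Fd (j0 : Fin N) (d : ℕ) : (1 : RR N) ∈ Fd j0 d 0 := by
  have := opP_mem j0 (P := 1) (d := d) (by simp)
  rwa [map_one] at this

lemma opS_mem (j0 : Fin N) (σ : Fin N → ℕ) {d e : ℕ} (h : 2 * ∑ k, σ k ≤ d) (he : e ≤ σ j0) :
    opS σ ∈ Fd j0 d e := by
  apply Submodule.subset_span
  exact ⟨1, σ, by simpa using h, he, by rw [map_one, one_mul]⟩

/-- explicit form of the elements -/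
lemma Fd_explicit (j0 : Fin N) {d e : ℕ} {L : RR N} (h : L ∈ Fd j0 d e) :
    ∃ (r : ℕ) (P : Fin r → PP N) (Sg : Fin r → Fin N → ℕ), (∀ i, e ≤ Sg i j0) ∧
      (∀ i, (P i).totalDegree + 2 * ∑ k, Sg i k ≤ d) ∧
      ∀ g a s, L g a s = ∑ i, MvPolynomial.eval (Sum.elim s a) (P i) *
        g a (fun k => s k + (Sg i k : ℂ)) := by
  refine Submodule.span_induction (p := fun L _ => ∃ (r : ℕ) (P : Fin r → PP N)
      (Sg : Fin r → Fin N → ℕ), (∀ i, e ≤ Sg i j0) ∧
      (∀ i, (P i).totalDegree + 2 * ∑ k, Sg i k ≤ d) ∧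
      ∀ g a s, L g a s = ∑ i, MvPolynomial.eval (Sum.elim s a) (P i) *
        g a (fun k => s k + (Sg i k : ℂ))) ?_ ?_ ?_ ?_ h
  · rintro B ⟨P, σ, h1, h2, rfl⟩
    refine ⟨1, fun _ => P, fun _ => σ, fun _ => h2, fun _ => h1, ?_⟩
    intro g a s
    simp [Module.End.mul_apply, opP_apply, opS_apply]
  · exact ⟨0, Fin.elim0, Fin.elim0, fun i => i.elim0, fun i => i.elim0, fun g a s => by simp⟩
  · rintro L1 L2 _ _ ⟨r1, P1, S1, a1, b1, c1⟩ ⟨r2, P2, S2, a2, b2, c2⟩
    refine ⟨r1 + r2, Fin.append P1 P2, Fin.append S1 S2, ?_, ?_, ?_⟩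
    · intro i
      refine Fin.addCases (fun i => ?_) (fun i => ?_) i
      · rw [Fin.append_left]; exact a1 i
      · rw [Fin.append_right]; exact a2 i
    · intro i
      refine Fin.addCases (fun i => ?_) (fun i => ?_) i
      · rw [Fin.append_left, Fin.append_left]; exact b1 i
      · rw [Fin.append_right, Fin.append_right]; exact b2 i
    · intro g a s
      rw [Fin.sum_univ_add]
      simp only [Fin.append_left, Fin.append_right]
      rw [← c1, ← c2]
      rfl
  · rintro c L1 _ ⟨r1, P1, S1, a1, b1, c1⟩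
    refine ⟨r1, fun i => MvPolynomial.C c * P1 i, S1, a1, ?_, ?_⟩
    · intro i
      refine le_trans ?_ (b1 i)
      have := MvPolynomial.totalDegree_mul (MvPolynomial.C c) (P1 i)
      rw [MvPolynomial.totalDegree_C, zero_add] at this
      exact Nat.add_le_add_right this _
    · intro g a s
      simp only [LinearMap.smul_apply, Pi.smul_apply, c1, smul_eq_mul, Finset.mul_sum, map_mul,
        MvPolynomial.eval_C]
      apply Finset.sum_congr rfl
      intro i _
      ring

/-- elements preserve vanishing on shift-closed sets -/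
lemma Fd_vanish (j0 : Fin N) {d e : ℕ} {L : RR N} (h : L ∈ Fd j0 d e)
    {D : Set ((Fin (N + 1) → ℂ) × (Fin N → ℂ))} (hD : ShiftClosed D) {g : VV N}
    (hg : ∀ a s, (a, s) ∈ D → g a s = 0) : ∀ a s, (a, s) ∈ D → L g a s = 0 := by
  obtain ⟨r, P, Sg, _, _, h3⟩ := Fd_explicit j0 h
  intro a s has
  rw [h3]
  apply Finset.sum_eq_zero
  intro i _
  rw [hg _ _ (hD a s has (Sg i)), mul_zero]

/-! ### the concrete system -/

/-- polynomial of `sx s k` -/
noncomputable def sxP (N k : ℕ) : PP N :=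
  if h : 0 < k ∧ k - 1 < N then MvPolynomial.X (Sum.inl ⟨k - 1, h.2⟩) else 0

lemma eval_sxP (k : ℕ) (a : Fin (N + 1) → ℂ) (s : Fin N → ℂ) :
    MvPolynomial.eval (Sum.elim s a) (sxP N k) = sx s k := by
  unfold sxP sx
  split_ifs <;> simp

lemma sxP_degree (k : ℕ) : (sxP N k).totalDegree ≤ 1 := by
  unfold sxP
  split_ifs <;> simp

noncomputable def pP (N k : ℕ) : PP N := sxP N (k + 1) - sxP N k

lemma eval_pP (k : ℕ) (a : Fin (N + 1) → ℂ) (s : Fin N → ℂ) :
    MvPolynomial.eval (Sum.elim s a) (pP N k) = pv s k := by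
  rw [pP, map_sub, eval_sxP, eval_sxP]; rfl

lemma pP_degree (k : ℕ) : (pP N k).totalDegree ≤ 1 :=
  (MvPolynomial.totalDegree_sub _ _).trans (max_le (sxP_degree _) (sxP_degree _))

/-- unit vector -/
def ee (k : ℕ) : Fin N → ℕ := fun j => if (j : ℕ) = k then 1 else 0

noncomputable def opp (N : ℕ) (k : ℕ) : RR N := opP (pP N k)
noncomputable def opT (N : ℕ) (k : ℕ) : RR N := if k < N then opS (ee k) else 0

lemma sum_ee {k : ℕ} (h : k < N) : ∑ j : Fin N, (ee k : Fin N → ℕ) j = 1 := by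
  unfold ee
  rw [Finset.sum_eq_single ⟨k, h⟩]
  · simp
  · intro b _ hb
    rw [if_neg]
    intro h2
    exact hb (Fin.ext h2)
  · simp

lemma opT_mem (j0 : Fin N) (k : ℕ) : opT N k ∈ Fd j0 2 0 := by
  unfold opT
  split_ifs with h
  · exact opS_mem j0 _ (by rw [sum_ee h]) (Nat.zero_le _)
  · exact Submodule.zero_mem _

lemma opT_mem' (j0 : Fin N) : opT N (j0 : ℕ) ∈ Fd j0 2 1 := by
  unfold opT
  rw [if_pos j0.2]
  exact opS_mem j0 _ (by rw [sum_ee j0.2]) (by simp [ee])

lemma opp_mem (j0 : Fin N) (k : ℕ) : opp N k ∈ Fd j0 1 0 := opP_mem j0 (pP_degree k)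

lemma sx_shift (s : Fin N → ℂ) (k j : ℕ) (hk : k < N) :
    sx (fun i => s i + ((ee k : Fin N → ℕ) i : ℂ)) j = sx s j + if j = k + 1 then 1 else 0 := by
  unfold sx ee
  by_cases h1 : 0 < j ∧ j - 1 < N
  · rw [dif_pos h1, dif_pos h1]
    by_cases h2 : j = k + 1
    · subst h2
      simp
    · have h3 : ¬ (j - 1 = k) := by omega
      simp only [h2, h3, if_false]
      simp
  · rw [dif_neg h1, dif_neg h1, if_neg (by omega), add_zero]

lemma shiftRel (N : ℕ) : ShiftRel (opp N) (opT N) where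
  pp i j := by
    have : Commute (pP N i) (pP N j) := Commute.all _ _
    exact this.map (opP : PP N →ₐ[ℂ] RR N)
  TT i j := by
    unfold opT
    split_ifs
    · change opS _ * opS _ = opS _ * opS _
      rw [opS_mul, opS_mul]
      congr 1
      funext k
      ring
    · exact Commute.zero_right _
    · exact Commute.zero_left _
    · exact Commute.zero_left _
  T0 k := by
    unfold opT
    split_ifs with h
    · ext g a s
      simp only [Module.End.mul_apply, opp, opP_apply, opS_apply, eval_pP, LinearMap.add_apply,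
        Pi.add_apply, Module.End.one_apply]
      unfold pv
      rw [sx_shift s k _ h, sx_shift s k _ h]
      simp
      ring
    · simp
  T1 k := by
    unfold opT
    split_ifs with h
    · ext g a s
      simp only [Module.End.mul_apply, opp, opP_apply, opS_apply, eval_pP, LinearMap.sub_apply,
        Pi.sub_apply, Module.End.one_apply]
      unfold pv
      rw [sx_shift s k _ h, sx_shift s k _ h]
      simp
      ring
    · simp
  Tp k j h1 h2 := by
    unfold opT
    split_ifs with h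
    · change _ * _ = _ * _
      ext g a s
      simp only [Module.End.mul_apply, opp, opP_apply, opS_apply, eval_pP]
      unfold pv
      rw [sx_shift s k _ h, sx_shift s k _ h, if_neg (by omega), if_neg (by omega)]
      simp
    · exact Commute.zero_left _

end Pool.Agent.W62.WS
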