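import Pool.Agent.W62.WS.ComAlg

set_option maxHeartbeats 4000000

namespace Pool.Agent.W62.WS.ComAlg

open Polynomial

/-- variables: `α_j`, coefficients `a_1..a_m` of `A`, coefficients `b_1..b_l` of `B` -/
abbrev Vr (m l : ℕ) := Fin (m + l) ⊕ (Fin m ⊕ Fin l)

abbrev MQ (m l : ℕ) := MvPolynomial (Vr m l) ℂ

/-- weights -/
def wt (m l : ℕ) : Vr m l → ℕ := Sum.elim (fun _ => 1) (Sum.elim (fun i => i + 1) (fun j => j + 1))

noncomputable def al {m l : ℕ} (j : Fin (m + l)) : MQ m l := MvPolynomial.X (Sum.inl j)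
noncomputable def ca {m l : ℕ} (i : Fin m) : MQ m l := MvPolynomial.X (Sum.inr (Sum.inl i))
noncomputable def cb {m l : ℕ} (j : Fin l) : MQ m l := MvPolynomial.X (Sum.inr (Sum.inr j))

/-- `X^d + ∑ c_i X^(d-1-i)` -/
noncomputable def mono {R : Type} [CommRing R] (d : ℕ) (c : Fin d → R) : R[X] :=
  X ^ d + ∑ i : Fin d, C (c i) * X ^ (d - 1 - (i : ℕ))

lemma mono_sum_degree {R : Type} [CommRing R] (d : ℕ) (c : Fin d → R) :
    (∑ i : Fin d, C (c i) * X ^ (d - 1 - (i : ℕ)) : R[X]).degree < d := by
  refine Finset.sum_induction _ (fun p : R[X] => p.degree < d)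
    (fun a b ha hb => lt_of_le_of_lt (degree_add_le a b) (max_lt ha hb))
    (by rw [degree_zero]; exact WithBot.bot_lt_coe d) ?_
  intro i _
  refine lt_of_le_of_lt (degree_C_mul_X_pow_le _ _) ?_
  have := i.2
  exact_mod_cast (by omega : d - 1 - (i : ℕ) < d)

lemma mono_monic {R : Type} [CommRing R] (d : ℕ) (c : Fin d → R) : (mono d c).Monic :=
  monic_X_pow_add (mono_sum_degree d c)

lemma mono_natDegree {R : Type} [CommRing R] [Nontrivial R] (d : ℕ) (c : Fin d → R) :
    (mono d c).natDegree = d := by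
  rw [mono, natDegree_add_eq_left_of_degree_lt]
  · simp
  · rw [degree_X_pow]; exact mono_sum_degree d c

lemma mono_coeff {R : Type} [CommRing R] (d : ℕ) (c : Fin d → R) (i : Fin d) :
    (mono d c).coeff (d - 1 - i) = c i := by
  have hi := i.2
  rw [mono, coeff_add, coeff_X_pow, if_neg (by omega), zero_add, finsetSum_coeff]
  rw [Finset.sum_eq_single i]
  · simp
  · intro j _ hj
    rw [coeff_C_mul_X_pow, if_neg]
    have hj2 := j.2
    intro h
    apply hj
    ext
    omega
  · simp

lemma mono_map {R S : Type} [CommRing R] [CommRing S] (f : R →+* S) (d : ℕ) (c : Fin d → R) :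
    (mono d c).map f = mono d (fun i => f (c i)) := by
  simp [mono, Polynomial.map_sum]

/-- coefficient `n-1-i` of `A B - ∏ (X + α_j)` -/
noncomputable def gco (m l : ℕ) (i : ℕ) : MQ m l :=
  (mono m ca * mono l cb - ∏ j, (X + C (al j))).coeff (m + l - 1 - i)

noncomputable def zz (m l : ℕ) (h : 0 < m) : MQ m l :=
  ∏ J ∈ (Finset.univ : Finset (Fin (m + l))).powersetCard m, (ca ⟨0, h⟩ - ∑ j ∈ J, al j)

lemma mem_span (m l : ℕ) (hm : 0 < m) :
    zz m l hm ∈ Ideal.span (Set.range (fun i : Fin (m + l) => gco m l i)) := by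
  classical
  set I := Ideal.span (Set.range (fun i : Fin (m + l) => gco m l i)) with hI
  rw [← Ideal.Quotient.eq_zero_iff_mem]
  set q := Ideal.Quotient.mk I with hq
  rcases subsingleton_or_nontrivial (MQ m l ⧸ I) with hS | hS
  · exact Subsingleton.elim _ _
  have hAB : mono m (fun i => q (ca i)) * mono l (fun i => q (cb i)) =
      ∏ j, (X + C (q (al j))) := by
    rw [← sub_eq_zero]
    have e : mono m (fun i => q (ca i)) * mono l (fun i => q (cb i)) - ∏ j, (X + C (q (al j)))
        = (mono m ca * mono l cb - ∏ j, (X + C (al j))).map q := by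
      rw [Polynomial.map_sub, Polynomial.map_mul, mono_map, mono_map, Polynomial.map_prod]
      simp
    have hmon2 : (∏ j : Fin (m + l), (X + C (al j : MQ m l))).Monic :=
      monic_prod_of_monic _ _ (fun j _ => monic_X_add_C _)
    have hd2 : (∏ j : Fin (m + l), (X + C (al j : MQ m l))).natDegree = m + l := by
      rw [natDegree_prod_of_monic _ _ (fun j _ => monic_X_add_C _)]
      simp
    have hmon1 := (mono_monic m (ca : Fin m → MQ m l)).mul (mono_monic l (cb : Fin l → MQ m l))
    have hd1 : (mono m (ca : Fin m → MQ m l) * mono l cb).natDegree = m + l := by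
      rw [(mono_monic m _).natDegree_mul (mono_monic l _), mono_natDegree, mono_natDegree]
    rw [e]
    ext k
    rw [coeff_map, coeff_zero]
    rcases lt_or_ge k (m + l) with hk | hk
    · rw [hq, Ideal.Quotient.eq_zero_iff_mem]
      apply Ideal.subset_span
      refine ⟨⟨m + l - 1 - k, by omega⟩, ?_⟩
      simp only [gco]
      congr 1
      omega
    · have : (mono m (ca : Fin m → MQ m l) * mono l cb - ∏ j, (X + C (al j))).coeff k = 0 := by
        rcases eq_or_lt_of_le hk with hk | hk
        · rw [coeff_sub, ← hk]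
          have h1 := hmon1.coeff_natDegree
          have h2 := hmon2.coeff_natDegree
          rw [hd1] at h1
          rw [hd2] at h2
          rw [h1, h2, sub_self]
        · apply coeff_eq_zero_of_natDegree_lt
          refine lt_of_le_of_lt (natDegree_sub_le _ _) ?_
          rw [hd1, hd2, max_self]
          exact hk
      rw [this, map_zero]
  have := fac_zero m l (fun j => q (al j)) _ _ (mono_monic m _) (mono_monic l _)
    (mono_natDegree m _) (mono_natDegree l _) hAB hm
  have h0 := mono_coeff m (fun i => q (ca i)) ⟨0, hm⟩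
  simp only [Nat.sub_zero] at h0
  rw [h0] at this
  rw [zz, map_prod, ← this]
  apply Finset.prod_congr rfl
  intro J _
  simp

lemma whom_al {m l : ℕ} (j : Fin (m + l)) :
    MvPolynomial.IsWeightedHomogeneous (wt m l) (al j) 1 :=
  MvPolynomial.isWeightedHomogeneous_X ℂ (wt m l) (Sum.inl j)

lemma whom_ca {m l : ℕ} (i : Fin m) :
    MvPolynomial.IsWeightedHomogeneous (wt m l) (ca i) (i + 1) :=
  MvPolynomial.isWeightedHomogeneous_X ℂ (wt m l) (Sum.inr (Sum.inl i))

lemma whom_cb {m l : ℕ} (i : Fin l) :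
    MvPolynomial.IsWeightedHomogeneous (wt m l) (cb i) (i + 1) :=
  MvPolynomial.isWeightedHomogeneous_X ℂ (wt m l) (Sum.inr (Sum.inr i))

/-- `p` has degree `≤ d` and the coefficient of `X^(d-i)` is homogeneous of weight `i` -/
def Hom {σ : Type} (w : σ → ℕ) (d : ℕ) (p : (MvPolynomial σ ℂ)[X]) : Prop :=
  ∀ k, (k ≤ d → (p.coeff k).IsWeightedHomogeneous w (d - k)) ∧ (d < k → p.coeff k = 0)

lemma Hom.mul {σ : Type} {w : σ → ℕ} {d e : ℕ} {p q : (MvPolynomial σ ℂ)[X]} (hp : Hom w d p)
    (hq : Hom w e q) : Hom w (d + e) (p * q) := by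
  intro k
  have key : ∀ x ∈ Finset.HasAntidiagonal.antidiagonal k, (k ≤ d + e →
      (p.coeff x.1 * q.coeff x.2).IsWeightedHomogeneous w (d + e - k)) ∧
      (d + e < k → p.coeff x.1 * q.coeff x.2 = 0) := by
    rintro ⟨i, j⟩ hij
    rw [Finset.HasAntidiagonal.mem_antidiagonal] at hij
    simp only at hij ⊢
    rcases lt_or_ge d i with hi | hi
    · rw [(hp i).2 hi, zero_mul]
      exact ⟨fun _ => MvPolynomial.isWeightedHomogeneous_zero _ _ _, fun _ => rfl⟩
    rcases lt_or_ge e j with hj | hj
    · rw [(hq j).2 hj, mul_zero]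
      exact ⟨fun _ => MvPolynomial.isWeightedHomogeneous_zero _ _ _, fun _ => rfl⟩
    refine ⟨fun _ => ?_, fun h => by omega⟩
    have := ((hp i).1 hi).mul ((hq j).1 hj)
    rwa [show d - i + (e - j) = d + e - k by omega] at this
  rw [coeff_mul]
  refine ⟨fun hk => ?_, fun hk => ?_⟩
  · exact MvPolynomial.IsWeightedHomogeneous.sum _ _ _ (fun x hx => (key x hx).1 hk)
  · exact Finset.sum_eq_zero (fun x hx => (key x hx).2 hk)

lemma Hom.sub {σ : Type} {w : σ → ℕ} {d : ℕ} {p q : (MvPolynomial σ ℂ)[X]} (hp : Hom w d p)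
    (hq : Hom w d q) : Hom w d (p - q) := by
  intro k
  rw [coeff_sub]
  refine ⟨fun hk => ((hp k).1 hk).sub ((hq k).1 hk), fun hk => ?_⟩
  rw [(hp k).2 hk, (hq k).2 hk, sub_zero]

lemma Hom.lin {σ : Type} {w : σ → ℕ} (a : MvPolynomial σ ℂ) (ha : a.IsWeightedHomogeneous w 1) :
    Hom w 1 (X + C a) := by
  intro k
  refine ⟨fun hk => ?_, fun hk => ?_⟩
  · interval_cases k
    · simpa using ha
    · simpa [coeff_X, coeff_C] using MvPolynomial.isWeightedHomogeneous_one ℂ w
  · rw [coeff_add, coeff_X, coeff_C, if_neg (by omega), if_neg (by omega), add_zero]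

lemma Hom.prod {σ : Type} {w : σ → ℕ} {ι : Type} (s : Finset ι) (a : ι → MvPolynomial σ ℂ)
    (ha : ∀ i, (a i).IsWeightedHomogeneous w 1) : Hom w s.card (∏ i ∈ s, (X + C (a i))) := by
  classical
  induction s using Finset.induction_on with
  | empty =>
    intro k
    simp only [Finset.card_empty, Finset.prod_empty]
    refine ⟨fun hk => ?_, fun hk => ?_⟩
    · obtain rfl : k = 0 := by omega
      simpa using MvPolynomial.isWeightedHomogeneous_one ℂ w
    · rw [coeff_one, if_neg (by omega)]
  | insert i s hi ih =>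
    rw [Finset.prod_insert hi, Finset.card_insert_of_notMem hi, add_comm s.card 1]
    exact (Hom.lin _ (ha i)).mul ih

lemma Hom.mono {σ : Type} {w : σ → ℕ} (d : ℕ) (c : Fin d → MvPolynomial σ ℂ)
    (hc : ∀ i : Fin d, (c i).IsWeightedHomogeneous w (i + 1)) : Hom w d (mono d c) := by
  intro k
  refine ⟨fun hk => ?_, fun hk => ?_⟩
  · rcases eq_or_lt_of_le hk with h | h
    · subst h
      have h1 := (mono_monic k c).coeff_natDegree
      rw [mono_natDegree] at h1
      rw [h1, Nat.sub_self]
      exact MvPolynomial.isWeightedHomogeneous_one ℂ w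
    · have := mono_coeff d c ⟨d - 1 - k, by omega⟩
      simp only at this
      rw [show d - 1 - (d - 1 - k) = k by omega] at this
      rw [this]
      have h2 := hc ⟨d - 1 - k, by omega⟩
      simp only at h2
      rwa [show d - 1 - k + 1 = d - k by omega] at h2
  · apply coeff_eq_zero_of_natDegree_lt
    rwa [mono_natDegree]

lemma gco_hom (m l i : ℕ) (hi : i < m + l) :
    (gco m l i).IsWeightedHomogeneous (wt m l) (i + 1) := by
  have h1 : Hom (wt m l) (m + l) (mono m (ca : Fin m → MQ m l) * mono l cb) :=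
    (Hom.mono m _ (fun i => whom_ca i)).mul (Hom.mono l _ (fun i => whom_cb i))
  have h2 : Hom (wt m l) (m + l) (∏ j : Fin (m + l), (X + C (al j : MQ m l))) := by
    have := Hom.prod (w := wt m l) (Finset.univ : Finset (Fin (m + l))) (fun j => (al j : MQ m l))
      (fun j => whom_al j)
    simpa using this
  have := ((h1.sub h2) (m + l - 1 - i)).1 (by omega)
  rwa [show m + l - (m + l - 1 - i) = i + 1 by omega] at this

lemma zz_hom (m l : ℕ) (hm : 0 < m) :
    (zz m l hm).IsWeightedHomogeneous (wt m l) ((m + l).choose m) := by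
  have := MvPolynomial.IsWeightedHomogeneous.prod
    ((Finset.univ : Finset (Fin (m + l))).powersetCard m)
    (fun J => (ca ⟨0, hm⟩ - ∑ j ∈ J, al j : MQ m l)) (fun _ => 1) (w := wt m l)
    (fun J _ => ((whom_ca ⟨0, hm⟩).sub
      (MvPolynomial.IsWeightedHomogeneous.sum _ _ _ (fun j _ => whom_al j))))
  simpa [zz] using this

theorem choose_big : ∀ a b : ℕ, a + b + 2 ≤ (a + 1 + (b + 1)).choose (a + 1) := by
  intro a
  induction a with
  | zero => intro b; simp; omega
  | succ a iha =>
    intro b
    induction b with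
    | zero => simp
    | succ b ihb =>
      have e : (a + 1 + 1 + (b + 1 + 1)).choose (a + 1 + 1) =
        (a + 1 + 1 + (b + 1)).choose (a + 1) + (a + 1 + 1 + (b + 1)).choose (a + 1 + 1) := by
        rw [show a + 1 + 1 + (b + 1 + 1) = (a + 1 + 1 + (b + 1)) + 1 by ring,
          Nat.choose_succ_succ]
      rw [e]
      have h1 : 1 ≤ (a + 1 + 1 + (b + 1)).choose (a + 1) :=
        Nat.choose_pos (by omega)
      omega

/-- ideal membership with weights -/
theorem comMem (m l : ℕ) (hm : 0 < m) (hl : 0 < l) :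
    ∃ c : Fin (m + l) → MQ m l,
      (∀ i, (c i).IsWeightedHomogeneous (wt m l) ((m + l).choose m - ((i : ℕ) + 1))) ∧
      zz m l hm = ∑ i, c i * gco m l i := by
  classical
  have h := mem_span m l hm
  rw [Ideal.mem_span_range_iff_exists_fun] at h
  obtain ⟨c, hc⟩ := h
  set N0 := (m + l).choose m with hN0
  have hbig : m + l ≤ N0 := by
    obtain ⟨m', rfl⟩ : ∃ m', m = m' + 1 := ⟨m - 1, by omega⟩
    obtain ⟨l', rfl⟩ : ∃ l', l = l' + 1 := ⟨l - 1, by omega⟩
    have : ∀ a b : ℕ, a + b + 2 ≤ (a + 1 + (b + 1)).choose (a + 1) := by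
      intro a
      induction a with
      | zero => intro b; simp; omega
      | succ a iha =>
        intro b
        induction b with
        | zero => simp
        | succ b ihb =>
          have e : (a + 1 + 1 + (b + 1 + 1)).choose (a + 1 + 1) =
            (a + 1 + 1 + (b + 1)).choose (a + 1) + (a + 1 + 1 + (b + 1)).choose (a + 1 + 1) := by
            rw [show a + 1 + 1 + (b + 1 + 1) = (a + 1 + 1 + (b + 1)) + 1 by ring,
              Nat.choose_succ_succ]
          rw [e]
          have h1 : 1 ≤ (a + 1 + 1 + (b + 1)).choose (a + 1) :=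
            Nat.choose_pos (by omega)
          omega
    have := this m' l'
    omega
  refine ⟨fun i => MvPolynomial.weightedHomogeneousComponent (wt m l) (N0 - ((i : ℕ) + 1)) (c i),
    fun i => MvPolynomial.weightedHomogeneousComponent_isWeightedHomogeneous _ _, ?_⟩
  have h1 := (zz_hom m l hm).weightedHomogeneousComponent_same
  rw [← h1, ← hc, map_sum]
  apply Finset.sum_congr rfl
  intro i _
  have hi := i.2
  -- component of a product with a homogeneous element
  ext d
  rw [MvPolynomial.coeff_weightedHomogeneousComponent, MvPolynomial.coeff_mul,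
    MvPolynomial.coeff_mul]
  have hg := gco_hom m l i hi
  split_ifs with hd
  · apply Finset.sum_congr rfl
    rintro ⟨x, y⟩ hxy
    rw [Finset.HasAntidiagonal.mem_antidiagonal] at hxy
    simp only at hxy ⊢
    rw [MvPolynomial.coeff_weightedHomogeneousComponent]
    split_ifs with hx
    · rfl
    · rw [zero_mul]
      by_cases hy : Finsupp.weight (wt m l) y = i + 1
      · exfalso
        apply hx
        have : Finsupp.weight (wt m l) x + Finsupp.weight (wt m l) y = N0 := by
          rw [← map_add, hxy]; exact hd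
        omega
      · rw [hg.coeff_eq_zero y hy, mul_zero]
  · symm
    apply Finset.sum_eq_zero
    rintro ⟨x, y⟩ hxy
    rw [Finset.HasAntidiagonal.mem_antidiagonal] at hxy
    simp only at hxy ⊢
    rw [MvPolynomial.coeff_weightedHomogeneousComponent]
    split_ifs with hx
    · by_cases hy : Finsupp.weight (wt m l) y = i + 1
      · exfalso
        apply hd
        rw [← hxy, map_add, hx, hy]
        omega
      · rw [hg.coeff_eq_zero y hy, mul_zero]
    · rw [zero_mul]

end Pool.Agent.W62.WS.ComAlg
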