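import Pool.Agent.W62.WS.Alg2
import Pool.Agent.W62.WS.ComMem

set_option maxHeartbeats 4000000

namespace Pool.Agent.W62.WS

open Polynomial

variable {N : ℕ}

/-! ### From `TodaK` to the coefficients of the operator continuant -/

/-- linear functional `Q ↦ ∑ Q_M g(s+M)` -/
noncomputable def lf (g : (Fin N → ℂ) → ℂ) (s : Fin N → ℂ) : MvPolynomial (Fin N) ℂ →ₗ[ℂ] ℂ where
  toFun Q := ∑ M ∈ Q.support, MvPolynomial.coeff M Q * g (fun k => s k + (M k : ℂ))
  map_add' P Q := by
    classical
    rw [Finset.sum_subset (s₁ := (P + Q).support) (s₂ := P.support ∪ Q.support)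
      MvPolynomial.support_add]
    · rw [Finset.sum_subset (s₁ := P.support) (s₂ := P.support ∪ Q.support)
        Finset.subset_union_left, Finset.sum_subset (s₁ := Q.support)
        (s₂ := P.support ∪ Q.support) Finset.subset_union_right, ← Finset.sum_add_distrib]
      · apply Finset.sum_congr rfl
        intro M _
        rw [MvPolynomial.coeff_add]; ring
      · intro M _ h
        rw [MvPolynomial.notMem_support_iff.mp h, zero_mul]
      · intro M _ h
        rw [MvPolynomial.notMem_support_iff.mp h, zero_mul]
    · intro M _ h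
      rw [MvPolynomial.notMem_support_iff.mp h, zero_mul]
  map_smul' c Q := by
    classical
    rw [Finset.sum_subset (s₁ := (c • Q).support) (s₂ := Q.support) MvPolynomial.support_smul]
    · rw [RingHom.id_apply, smul_eq_mul, Finset.mul_sum]
      apply Finset.sum_congr rfl
      intro M _
      rw [MvPolynomial.coeff_smul, smul_eq_mul]; ring
    · intro M _ h
      rw [MvPolynomial.notMem_support_iff.mp h, zero_mul]

lemma lf_monomial (g : (Fin N → ℂ) → ℂ) (s : Fin N → ℂ) (M : Fin N →₀ ℕ) (c : ℂ) :
    lf g s (MvPolynomial.monomial M c) = c * g (fun k => s k + (M k : ℂ)) := by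
  classical
  change ∑ M' ∈ (MvPolynomial.monomial M c).support, _ = _
  by_cases hc : c = 0
  · subst hc; simp
  · rw [MvPolynomial.support_monomial, if_neg hc]
    simp

lemma lf_C_mul (g : (Fin N → ℂ) → ℂ) (s : Fin N → ℂ) (c : ℂ) (Q : MvPolynomial (Fin N) ℂ) :
    lf g s (MvPolynomial.C c * Q) = c * lf g s Q := by
  rw [← MvPolynomial.smul_eq_C_mul, map_smul, smul_eq_mul]

lemma lf_mul_X (g : (Fin N → ℂ) → ℂ) (s : Fin N → ℂ) (i : Fin N) (Q : MvPolynomial (Fin N) ℂ) :
    lf g s (Q * MvPolynomial.X i) =
      lf (fun t => g (fun k => t k + ((ee (i : ℕ) : Fin N → ℕ) k : ℂ))) s Q := by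
  induction Q using MvPolynomial.induction_on' with
  | monomial M c =>
    rw [MvPolynomial.X, MvPolynomial.monomial_mul, lf_monomial, lf_monomial, mul_one]
    congr 2
    funext k
    rw [Finsupp.add_apply, Finsupp.single_apply]
    unfold ee
    push_cast
    rw [add_assoc]
    congr 2
    by_cases h : i = k
    · subst h; simp
    · rw [if_neg h, if_neg (fun h2 => h (Fin.ext h2.symm))]
  | add p q hp hq => rw [add_mul, map_add, map_add, hp, hq]

/-- variables of `kapP x s k` are `< k-1` -/
lemma kapP_vars (x : ℂ) (s : Fin N → ℂ) : ∀ k, ∀ M ∈ (kapP x s k).support, ∀ i : Fin N,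
    k ≤ (i : ℕ) + 1 → M i = 0
  | 0, M, hM, i, hi => by
    have : kapP x s 0 = 1 := rfl
    rw [this, MvPolynomial.support_one, Finset.mem_singleton] at hM
    rw [hM]; rfl
  | 1, M, hM, i, hi => by
    have : kapP x s 1 = MvPolynomial.monomial 0 (x + pv s 0) := rfl
    rw [this] at hM
    have h2 := MvPolynomial.support_monomial_subset hM
    rw [Finset.mem_singleton] at h2
    rw [h2]; rfl
  | (k + 2), M, hM, i, hi => by
    classical
    have e : kapP x s (k + 2) = kapP x s (k + 1) * MvPolynomial.C (x + pv s (k + 1)) +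
      kapP x s k * (if h : k < N then (MvPolynomial.X ⟨k, h⟩ : MvPolynomial (Fin N) ℂ) else 0) := rfl
    rw [e] at hM
    have h1 := MvPolynomial.support_add hM
    rw [Finset.mem_union] at h1
    rcases h1 with h1 | h1
    · rw [mul_comm, ← MvPolynomial.smul_eq_C_mul] at h1
      exact kapP_vars x s (k + 1) M (MvPolynomial.support_smul h1) i (by omega)
    · split_ifs at h1 with hk
      · rw [MvPolynomial.support_mul_X, Finset.mem_map] at h1
        obtain ⟨M', hM', rfl⟩ := h1
        have := kapP_vars x s k M' hM' i (by omega)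
        simp only [addRightEmbedding_apply, Finsupp.add_apply, this, zero_add]
        rw [Finsupp.single_apply, if_neg]
        intro h
        have := congrArg Fin.val h
        simp at this
        omega
      · simp at h1

/-- the evaluation of the operator continuant at a scalar -/
lemma eval_DP (x : ℂ) (g : VV N) (a : Fin (N + 1) → ℂ) (s : Fin N → ℂ) :
    ∀ k, ∑ c ∈ Finset.range (k + 1), x ^ c * ((DP (opp N) (opT N) k).coeff c g a s) =
      lf (g a) s (kapP x s k) := by
  intro k
  induction k using Nat.strong_induction_on generalizing g with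
  | _ k ih =>
    match k, ih with
    | 0, _ =>
      have e1 : DP (opp N) (opT N) 0 = 1 := rfl
      have e2 : kapP x s 0 = MvPolynomial.monomial 0 1 := rfl
      rw [e1, e2, lf_monomial]
      simp
    | 1, _ =>
      have e1 : DP (opp N) (opT N) 1 = X + C (opp N 0) := rfl
      have e2 : kapP x s 1 = MvPolynomial.monomial 0 (x + pv s 0) := rfl
      rw [e1, e2, lf_monomial, Finset.sum_range_succ, Finset.sum_range_one]
      simp [coeff_X, coeff_C, opp, opP_apply, eval_pP]
      ring
    | (k + 2), ih =>
      have ih1 := fun g => ih (k + 1) (by omega) g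
      have ih0 := fun g => ih k (by omega) g
      have e2 : kapP x s (k + 2) = kapP x s (k + 1) * MvPolynomial.C (x + pv s (k + 1)) +
        kapP x s k * (if h : k < N then (MvPolynomial.X ⟨k, h⟩ : MvPolynomial (Fin N) ℂ) else 0) :=
        rfl
      rw [e2, map_add, mul_comm (kapP x s (k + 1)), lf_C_mul]
      -- left side
      have e3 : ∀ c, ((DP (opp N) (opT N) (k + 2)).coeff c g a s) =
          ((DP (opp N) (opT N) (k + 1) * X).coeff c g a s) +
          ((DP (opp N) (opT N) (k + 1)).coeff c (opp N (k + 1) g) a s) +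
          ((DP (opp N) (opT N) k).coeff c (opT N k g) a s) := by
        intro c
        rw [DP_succ, mul_add, coeff_add, coeff_add, coeff_mul_C, coeff_mul_C]
        rfl
      have e4 : ∑ c ∈ Finset.range (k + 2 + 1), x ^ c * ((DP (opp N) (opT N) (k + 1) * X).coeff c g a s)
          = x * lf (g a) s (kapP x s (k + 1)) := by
        rw [Finset.sum_range_succ', ← ih1, Finset.mul_sum]
        simp only [mul_coeff_zero, coeff_X_zero, mul_zero, LinearMap.zero_apply, Pi.zero_apply,
          coeff_mul_X, add_zero]
        apply Finset.sum_congr rfl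
        intro c _
        ring
      have e5 : ∑ c ∈ Finset.range (k + 2 + 1), x ^ c *
          ((DP (opp N) (opT N) (k + 1)).coeff c (opp N (k + 1) g) a s) =
          pv s (k + 1) * lf (g a) s (kapP x s (k + 1)) := by
        rw [Finset.sum_range_succ, ih1, DP_coeff_gt _ _ _ _ (by omega)]
        simp only [LinearMap.zero_apply, Pi.zero_apply, mul_zero, add_zero]
        change ∑ M ∈ _, _ = _ * ∑ M ∈ _, _
        rw [Finset.mul_sum]
        apply Finset.sum_congr rfl
        intro M hM
        have hz := kapP_vars x s (k + 1) M hM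
        have : opp N (k + 1) g a (fun i => s i + (M i : ℂ)) =
            pv s (k + 1) * g a (fun i => s i + (M i : ℂ)) := by
          rw [opp, opP_apply, eval_pP]
          congr 1
          unfold pv sx
          have h1 : ∀ j, k + 1 ≤ j → (if h : 0 < j ∧ j - 1 < N then
              (fun i : Fin N => s i + (M i : ℂ)) ⟨j - 1, h.2⟩ else 0) =
              (if h : 0 < j ∧ j - 1 < N then s ⟨j - 1, h.2⟩ else 0) := by
            intro j hj
            split_ifs with h
            · simp only
              rw [hz ⟨j - 1, h.2⟩ (by simp only; omega)]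
              simp
            · rfl
          rw [h1 _ (by omega), h1 _ (by omega)]
        rw [this]; ring
      have e6 : ∑ c ∈ Finset.range (k + 2 + 1), x ^ c *
          ((DP (opp N) (opT N) k).coeff c (opT N k g) a s) =
          lf (g a) s (kapP x s k *
            (if h : k < N then (MvPolynomial.X ⟨k, h⟩ : MvPolynomial (Fin N) ℂ) else 0)) := by
        rw [Finset.sum_range_succ, Finset.sum_range_succ, ih0, DP_coeff_gt _ _ _ _ (by omega),
          DP_coeff_gt _ _ _ _ (by omega)]
        simp only [LinearMap.zero_apply, Pi.zero_apply, mul_zero, add_zero]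
        unfold opT
        split_ifs with h
        · rw [lf_mul_X]; rfl
        · rw [mul_zero, map_zero]
          change ∑ M ∈ _, _ = _
          simp
      rw [Finset.sum_congr rfl (fun c _ => by rw [e3 c])]
      simp only [mul_add]
      rw [Finset.sum_add_distrib, Finset.sum_add_distrib, e4, e5, e6]
      ring

/-- the polynomial `∏ (X + α_j)` with coefficients in `PP N` -/
noncomputable def Pal (N : ℕ) : (PP N)[X] := ∏ j : Fin (N + 1), (X + C (MvPolynomial.X (Sum.inr j)))

lemma toda_coeff {D : Set ((Fin (N + 1) → ℂ) × (Fin N → ℂ))} {f : VV N} (hf : TodaOn D f)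
    (c : ℕ) (hc : c ≤ N + 1) : ∀ a s, (a, s) ∈ D →
    ((DP (opp N) (opT N) (N + 1)).coeff c - opP ((Pal N).coeff c)) f a s = 0 := by
  intro a s has
  have h1 : ∀ x : ℂ, ∑ c ∈ Finset.range (N + 1 + 1), x ^ c *
      ((DP (opp N) (opT N) (N + 1)).coeff c f a s) = (∏ j, (x + a j)) * f a s := by
    intro x
    rw [eval_DP]
    exact hf a s has x
  set A : ℂ[X] := ∑ c ∈ Finset.range (N + 1 + 1),
    C ((DP (opp N) (opT N) (N + 1)).coeff c f a s) * X ^ c with hA
  set B : ℂ[X] := (∏ j, (X + C (a j))) * C (f a s) with hB
  have hAB : A = B := by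
    apply Polynomial.funext
    intro x
    rw [hA, hB]
    simp only [eval_finsetSum, eval_mul, eval_C, eval_pow, eval_X, eval_prod, eval_add]
    rw [← h1 x]
    apply Finset.sum_congr rfl
    intro c _
    ring
  have h2 := congrArg (fun q => q.coeff c) hAB
  simp only [hA, hB, coeff_mul_C, finsetSum_coeff, coeff_C_mul, coeff_X_pow] at h2
  rw [Finset.sum_eq_single c] at h2
  · simp only [if_true, mul_one] at h2
    rw [LinearMap.sub_apply, Pi.sub_apply, Pi.sub_apply, opP_apply, h2]
    have : MvPolynomial.eval (Sum.elim s a) ((Pal N).coeff c) = (∏ j, (X + C (a j))).coeff c := by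
      have e := Polynomial.coeff_map (MvPolynomial.eval (Sum.elim s a)) (p := Pal N) c
      rw [← e, Pal, Polynomial.map_prod]
      simp
    rw [this, sub_self]
  · intro b _ hb
    rw [if_neg (fun h => hb h.symm), mul_zero]
  · intro h
    exfalso
    apply h
    rw [Finset.mem_range]
    omega

end Pool.Agent.W62.WS
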