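import Mathlib

set_option maxHeartbeats 4000000

namespace Pool.Agent.W62.WS.ComAlg

open Polynomial

/-- symmetric functions of the roots -/
lemma prod_eq_zero {S : Type*} [CommRing S] (n m : ℕ) (ξ α : Fin n → S)
    (h : ∏ i, (X + C (ξ i)) = ∏ i, (X + C (α i))) (J0 : Finset (Fin n)) (hJ : J0.card = m) :
    ∏ J ∈ (Finset.univ : Finset (Fin n)).powersetCard m, (∑ i ∈ J0, ξ i - ∑ j ∈ J, α j) = 0 := by
  classical
  set y : S := ∑ i ∈ J0, ξ i with hy
  let f : MvPolynomial (Fin n) S := ∏ J ∈ (Finset.univ : Finset (Fin n)).powersetCard m,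
    (MvPolynomial.C y - ∑ j ∈ J, MvPolynomial.X j)
  have hf : f.IsSymmetric := by
    intro e
    simp only [f, map_prod, map_sub, map_sum, MvPolynomial.rename_C, MvPolynomial.rename_X]
    refine Finset.prod_bij (fun J _ => J.map e.toEmbedding) ?_ ?_ ?_ ?_
    · intro J hJ
      simp only [Finset.mem_powersetCard] at hJ ⊢
      exact ⟨Finset.subset_univ _, by rw [Finset.card_map]; exact hJ.2⟩
    · intro J1 _ J2 _ h12
      exact Finset.map_injective _ h12
    · intro K hK
      refine ⟨K.map e.symm.toEmbedding, ?_, ?_⟩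
      · simp only [Finset.mem_powersetCard] at hK ⊢
        exact ⟨Finset.subset_univ _, by rw [Finset.card_map]; exact hK.2⟩
      · ext x; simp
    · intro J hJ
      simp [Finset.sum_map]
  obtain ⟨g, hg⟩ := MvPolynomial.esymmAlgHom_surjective (σ := Fin n) (R := S) (n := n) (by simp)
    ⟨f, hf⟩
  have hg' : MvPolynomial.aeval (fun i : Fin n => MvPolynomial.esymm (Fin n) S (i + 1)) g = f := by
    rw [← MvPolynomial.esymmAlgHom_apply, hg]
  have key : ∀ a : Fin n → S, MvPolynomial.aeval a f =
      MvPolynomial.aeval (fun i : Fin n => MvPolynomial.aeval a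
        (MvPolynomial.esymm (Fin n) S (i + 1))) g := by
    intro a
    rw [← hg', ← AlgHom.comp_apply, MvPolynomial.comp_aeval]
  have es : ∀ (a : Fin n → S) (i : Fin n), MvPolynomial.aeval a
      (MvPolynomial.esymm (Fin n) S (i + 1)) = (∏ i, (X + C (a i))).coeff (n - (i + 1)) := by
    intro a i
    have h1 := MvPolynomial.prod_X_add_C_coeff S (Fin n) (n - (i + 1)) (by simp)
    have h2 := congrArg (MvPolynomial.aeval a) h1
    rw [Fintype.card_fin, show n - (n - ((i : ℕ) + 1)) = i + 1 by omega] at h2
    rw [← h2]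
    have h9 := Polynomial.coeff_map (MvPolynomial.aeval a : MvPolynomial (Fin n) S →ₐ[S] S).toRingHom
      (p := ∏ i : Fin n, (X + C (MvPolynomial.X i))) (n - ((i : ℕ) + 1))
    refine Eq.trans h9.symm ?_
    rw [Polynomial.map_prod]
    simp
  have h3 : MvPolynomial.aeval ξ f = MvPolynomial.aeval α f := by
    rw [key, key]
    congr 2
    funext i
    rw [es, es, h]
  have h4 : MvPolynomial.aeval α f = ∏ J ∈ (Finset.univ : Finset (Fin n)).powersetCard m,
      (y - ∑ j ∈ J, α j) := by
    simp [f]
  have h5 : MvPolynomial.aeval ξ f = 0 := by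
    simp only [f, map_prod]
    apply Finset.prod_eq_zero (i := J0)
    · simp [Finset.mem_powersetCard, hJ]
    · simp [hy]
  rw [← h4, ← h3, h5]

/-- every monic polynomial splits in an injective extension -/
lemma split : ∀ (d : ℕ) (S : Type) (_ : CommRing S) (A : S[X]), A.Monic → A.natDegree = d →
    ∃ (S' : Type) (_ : CommRing S') (f : S →+* S'), Function.Injective f ∧
      ∃ ξ : Fin d → S', A.map f = ∏ i, (X + C (ξ i)) := by
  intro d
  induction d with
  | zero =>
    intro S _ A hA hd
    refine ⟨S, inferInstance, RingHom.id S, fun _ _ h => h, Fin.elim0, ?_⟩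
    simp only [Polynomial.map_id, Finset.univ_eq_empty, Finset.prod_empty]
    exact hA.natDegree_eq_zero.mp hd
  | succ d ih =>
    intro S _ A hA hd
    rcases subsingleton_or_nontrivial S with hS | hS
    · refine ⟨S, inferInstance, RingHom.id S, fun _ _ h => h, fun _ => 0, ?_⟩
      exact Subsingleton.elim _ _
    · have hinj : Function.Injective (AdjoinRoot.of A) := by
        rw [injective_iff_map_eq_zero]
        intro c hc
        have h1 : AdjoinRoot.mk A (C c) = 0 := by rwa [AdjoinRoot.mk_C]
        rw [AdjoinRoot.mk_eq_zero] at h1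
        by_contra hne
        obtain ⟨q, hq⟩ := h1
        have hq0 : q ≠ 0 := by
          rintro rfl
          rw [mul_zero, C_eq_zero] at hq
          exact hne hq
        have h2 := congrArg natDegree hq
        rw [hA.natDegree_mul' hq0, hd, natDegree_C] at h2
        omega
      have hnt : Nontrivial (AdjoinRoot A) := hinj.nontrivial
      set r : AdjoinRoot A := AdjoinRoot.root A with hr
      have hroot : (A.map (AdjoinRoot.of A)).IsRoot r := AdjoinRoot.isRoot_root A
      set B := (A.map (AdjoinRoot.of A)) /ₘ (X - C r) with hB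
      have hfac : (X - C r) * B = A.map (AdjoinRoot.of A) :=
        mul_divByMonic_eq_iff_isRoot.mpr hroot
      have hAm : (A.map (AdjoinRoot.of A)).Monic := hA.map _
      have hBm : B.Monic := by
        apply Polynomial.Monic.of_mul_monic_left (monic_X_sub_C r)
        rw [hfac]; exact hAm
      have hBd : B.natDegree = d := by
        have := (monic_X_sub_C r).natDegree_mul hBm
        rw [hfac, hA.natDegree_map, natDegree_X_sub_C] at this
        omega
      obtain ⟨S', _, f, hf, ξ, hξ⟩ := ih (AdjoinRoot A) inferInstance B hBm hBd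
      refine ⟨S', inferInstance, f.comp (AdjoinRoot.of A), hf.comp hinj, Fin.cons (-f r) ξ, ?_⟩
      rw [← Polynomial.map_map, ← hfac, Polynomial.map_mul, hξ, Fin.prod_univ_succ]
      simp [sub_eq_add_neg]

/-- the factor vanishes -/
lemma fac_zero {S : Type} [CommRing S] (m l : ℕ) (α : Fin (m + l) → S) (A B : S[X])
    (hA : A.Monic) (hB : B.Monic) (hAd : A.natDegree = m) (hBd : B.natDegree = l)
    (h : A * B = ∏ i, (X + C (α i))) (hm : 1 ≤ m) :
    ∏ J ∈ (Finset.univ : Finset (Fin (m + l))).powersetCard m,
      (A.coeff (m - 1) - ∑ j ∈ J, α j) = 0 := by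
  classical
  obtain ⟨S1, _, f1, hf1, ξ, hξ⟩ := split m S inferInstance A hA hAd
  rcases subsingleton_or_nontrivial S with hS | hS
  · exact Subsingleton.elim _ _
  have : Nontrivial S1 := hf1.nontrivial
  obtain ⟨S2, _, f2, hf2, η, hη⟩ := split l S1 inferInstance (B.map f1) (hB.map f1)
    (by rw [hB.natDegree_map, hBd])
  have hinj : Function.Injective (f2.comp f1) := hf2.comp hf1
  apply hinj
  rw [map_zero, map_prod]
  have hroots : ∏ i : Fin (m + l), (X + C (Fin.append (fun i => f2 (ξ i)) η i)) =
      ∏ i, (X + C ((f2.comp f1) (α i))) := by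
    rw [Fin.prod_univ_add]
    simp only [Fin.append_left, Fin.append_right]
    have e1 : ∏ i, (X + C ((f2.comp f1) (α i))) = (A * B).map (f2.comp f1) := by
      rw [h, Polynomial.map_prod]; simp
    rw [e1, Polynomial.map_mul, ← Polynomial.map_map, ← Polynomial.map_map, hξ, hη,
      Polynomial.map_prod]
    simp
  have hJ0 : (Finset.univ.map (Fin.castAddEmb l) : Finset (Fin (m + l))).card = m := by simp
  have := prod_eq_zero (m + l) m (Fin.append (fun i => f2 (ξ i)) η) (fun i => (f2.comp f1) (α i))
    hroots (Finset.univ.map (Fin.castAddEmb l)) hJ0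
  have hco : (f2.comp f1) (A.coeff (m - 1)) =
      ∑ i ∈ (Finset.univ.map (Fin.castAddEmb l) : Finset (Fin (m + l))),
        Fin.append (fun i => f2 (ξ i)) η i := by
    rw [Finset.sum_map]
    simp only [Fin.castAddEmb_apply, Fin.append_left]
    rw [RingHom.comp_apply, ← Polynomial.coeff_map, hξ]
    rw [← map_sum]
    congr 1
    have h7 := Finset.prod_X_add_C_coeff (Finset.univ : Finset (Fin m)) ξ (k := m - 1) (by simp)
    rw [h7, Finset.card_univ, Fintype.card_fin, show m - (m - 1) = 1 by omega]
    simp [Finset.powersetCard_one]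
  rw [← this]
  apply Finset.prod_congr rfl
  intro J _
  rw [map_sub, map_sum, hco]

end Pool.Agent.W62.WS.ComAlg
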