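import Pool.Agent.W62.WS.Defs

set_option maxHeartbeats 4000000

namespace Pool.Agent.W62.WS

variable {R : Type} [Ring R]

structure Cen (x : R) (p T : ℕ → R) : Prop where
  cp : ∀ i, Commute x (p i)
  cT : ∀ i, Commute x (T i)

/-- `Dn` commutes with anything commuting with `x`, `p i` (`i < k`), `T i` (`i + 1 < k`) -/
lemma Dn_commute {x z : R} {p T : ℕ → R} (hx : Commute z x) :
    ∀ k, (∀ i, i < k → Commute z (p i)) → (∀ i, i + 1 < k → Commute z (T i)) →
      Commute z (Dn x p T k)
  | 0, _, _ => Commute.one_right z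
  | 1, h1, _ => hx.add_right (h1 0 (by omega))
  | (k + 2), h1, h2 => by
    have a := Dn_commute hx (k + 1) (fun i hi => h1 i (by omega)) (fun i hi => h2 i (by omega))
    have b := Dn_commute hx k (fun i hi => h1 i (by omega)) (fun i hi => h2 i (by omega))
    exact (a.mul_right (hx.add_right (h1 (k + 1) (by omega)))).add_right
      (b.mul_right (h2 k (by omega)))

variable {p T : ℕ → R}

lemma T_Dn {x : R} (h : ShiftRel p T) (cx : Cen x p T) (k : ℕ) :
    T k * Dn x p T (k + 1) = (Dn x p T (k + 1) + Dn x p T k) * T k := by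
  cases k with
  | zero =>
    simp only [Dn, mul_add, add_mul, one_mul]
    rw [h.T0 0, ← (cx.cT 0).eq]
    noncomm_ring
  | succ k =>
    have c1 : Commute (T (k + 1)) (Dn x p T (k + 1)) := by
      apply Dn_commute (cx.cT _).symm
      · intro i hi; exact h.Tp _ _ (by omega) (by omega)
      · intro i hi; exact h.TT _ _
    have c0 : Commute (T (k + 1)) (Dn x p T k) := by
      apply Dn_commute (cx.cT _).symm
      · intro i hi; exact h.Tp _ _ (by omega) (by omega)
      · intro i hi; exact h.TT _ _
    have e : Dn x p T (k + 1 + 1) = Dn x p T (k + 1) * (x + p (k + 1)) + Dn x p T k * T k := rfl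
    have t : T (k + 1) * (x + p (k + 1)) = (x + p (k + 1) + 1) * T (k + 1) := by
      rw [mul_add, h.T0, ← (cx.cT _).eq]; noncomm_ring
    have t2 : T (k + 1) * T k = T k * T (k + 1) := (h.TT _ _).eq
    rw [e]
    calc T (k + 1) * (Dn x p T (k + 1) * (x + p (k + 1)) + Dn x p T k * T k)
        = Dn x p T (k + 1) * (T (k + 1) * (x + p (k + 1))) + Dn x p T k * (T (k + 1) * T k) := by
          rw [mul_add, ← mul_assoc, c1.eq, mul_assoc, ← mul_assoc (T (k + 1)) (Dn x p T k), c0.eq,
            mul_assoc (Dn x p T k)]
      _ = _ := by rw [t, t2]; noncomm_ring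

/-- the commutation statements -/
lemma Dn_comm_main {x y : R} (h : ShiftRel p T) (cx : Cen x p T) (cy : Cen y p T)
    (hxy : Commute x y) : ∀ k,
    (Dn x p T k * Dn y p T k = Dn y p T k * Dn x p T k) ∧
    (Dn x p T (k + 1) * Dn y p T (k + 1) = Dn y p T (k + 1) * Dn x p T (k + 1)) ∧
    (Dn x p T (k + 1) * (Dn y p T k * T k) - (Dn y p T k * T k) * Dn x p T (k + 1) =
      Dn y p T (k + 1) * (Dn x p T k * T k) - (Dn x p T k * T k) * Dn y p T (k + 1)) ∧
    ((x - y) * (Dn x p T (k + 1) * (Dn y p T k * T k) - (Dn y p T k * T k) * Dn x p T (k + 1)) =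
      Dn y p T (k + 1) * (Dn x p T k * T k) - Dn x p T (k + 1) * (Dn y p T k * T k)) := by
  intro k
  induction k with
  | zero =>
    have e0 : ∀ z : R, Dn z p T 0 = 1 := fun _ => rfl
    have e1 : ∀ z : R, Dn z p T (0 + 1) = z + p 0 := fun _ => rfl
    have t := h.T0 0
    have cx1 := (cx.cT 0).eq
    have cy1 := (cy.cT 0).eq
    have w : ∀ z : R, z * T 0 = T 0 * z → (z + p 0) * (1 * T 0) - 1 * T 0 * (z + p 0) = - T 0 := by
      intro z hz
      rw [one_mul, mul_add, t, ← hz]; noncomm_ring
    refine ⟨by simp [e0], ?_, ?_, ?_⟩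
    · rw [e1, e1]
      have : Commute (x + p 0) (y + p 0) :=
        (hxy.add_right (cx.cp 0)).add_left ((cy.cp 0).symm.add_right (Commute.refl _))
      exact this.eq
    · rw [e1, e1, e0, e0, w x cx1, w y cy1]
    · rw [e1, e1, e0, e0, w x cx1]; noncomm_ring
  | succ k ih =>
    obtain ⟨i1, i2, i3, i4⟩ := ih
    set A := Dn x p T (k + 1) with hA
    set B := Dn y p T (k + 1) with hB
    set E := Dn x p T k * T k with hE
    set F := Dn y p T k * T k with hF
    set q := p (k + 1) with hq
    have eX : Dn x p T (k + 1 + 1) = A * (x + q) + E := rfl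
    have eY : Dn y p T (k + 1 + 1) = B * (y + q) + F := rfl
    -- commutations
    have xA : x * A = A * x := (Dn_commute (Commute.refl x) (k + 1) (fun i _ => cx.cp i)
      (fun i _ => cx.cT i)).eq
    have xB : x * B = B * x := (Dn_commute hxy (k + 1) (fun i _ => cx.cp i) (fun i _ => cx.cT i)).eq
    have yA : y * A = A * y := (Dn_commute hxy.symm (k + 1) (fun i _ => cy.cp i)
      (fun i _ => cy.cT i)).eq
    have yB : y * B = B * y := (Dn_commute (Commute.refl y) (k + 1) (fun i _ => cy.cp i)
      (fun i _ => cy.cT i)).eq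
    have xE : x * E = E * x := ((Dn_commute (Commute.refl x) k (fun i _ => cx.cp i)
      (fun i _ => cx.cT i)).mul_right (cx.cT k)).eq
    have yE : y * E = E * y := ((Dn_commute hxy.symm k (fun i _ => cy.cp i)
      (fun i _ => cy.cT i)).mul_right (cy.cT k)).eq
    have xF : x * F = F * x := ((Dn_commute hxy k (fun i _ => cx.cp i)
      (fun i _ => cx.cT i)).mul_right (cx.cT k)).eq
    have yF : y * F = F * y := ((Dn_commute (Commute.refl y) k (fun i _ => cy.cp i)
      (fun i _ => cy.cT i)).mul_right (cy.cT k)).eq
    have qA : q * A = A * q := (Dn_commute (cx.cp _).symm (k + 1) (fun i _ => h.pp _ _)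
      (fun i hi => (h.Tp i (k + 1) (by omega) (by omega)).symm)).eq
    have qB : q * B = B * q := (Dn_commute (cy.cp _).symm (k + 1) (fun i _ => h.pp _ _)
      (fun i hi => (h.Tp i (k + 1) (by omega) (by omega)).symm)).eq
    have qDx : q * Dn x p T k = Dn x p T k * q := (Dn_commute (cx.cp _).symm k (fun i _ => h.pp _ _)
      (fun i hi => (h.Tp i (k + 1) (by omega) (by omega)).symm)).eq
    have qDy : q * Dn y p T k = Dn y p T k * q := (Dn_commute (cy.cp _).symm k (fun i _ => h.pp _ _)
      (fun i hi => (h.Tp i (k + 1) (by omega) (by omega)).symm)).eq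
    have TDx : T k * Dn x p T k = Dn x p T k * T k := (Dn_commute (cx.cT _).symm k
      (fun i hi => h.Tp _ _ (by omega) (by omega)) (fun i _ => h.TT _ _)).eq
    have TDy : T k * Dn y p T k = Dn y p T k * T k := (Dn_commute (cy.cT _).symm k
      (fun i hi => h.Tp _ _ (by omega) (by omega)) (fun i _ => h.TT _ _)).eq
    have Eq' : E * q = (q - 1) * E := by
      rw [hE, mul_assoc, h.T1, sub_mul, one_mul, mul_sub, ← mul_assoc, ← qDx, sub_mul, one_mul,
        mul_assoc]
    have Fq' : F * q = (q - 1) * F := by
      rw [hF, mul_assoc, h.T1, sub_mul, one_mul, mul_sub, ← mul_assoc, ← qDy, sub_mul, one_mul,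
        mul_assoc]
    have EF : E * F = F * E := by
      rw [hE, hF]
      calc Dn x p T k * T k * (Dn y p T k * T k) = Dn x p T k * (T k * Dn y p T k) * T k := by
            noncomm_ring
        _ = (Dn x p T k * Dn y p T k) * T k * T k := by rw [TDy]; noncomm_ring
        _ = Dn y p T k * (Dn x p T k * T k) * T k := by rw [i1]; noncomm_ring
        _ = Dn y p T k * (T k * Dn x p T k) * T k := by rw [TDx]
        _ = _ := by simp only [mul_assoc]
    have xq : x * q = q * x := (cx.cp _).eq
    have yq : y * q = q * y := (cy.cp _).eq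
    have hxy' : x * y = y * x := hxy.eq
    -- (ii)
    have ii : (A * (x + q) + E) * (B * (y + q) + F) = (B * (y + q) + F) * (A * (x + q) + E) := by
      have c1 : A * (x + q) * (B * (y + q)) = A * B * ((x + q) * (y + q)) := by
        have : (x + q) * B = B * (x + q) := by rw [add_mul, mul_add, xB, qB]
        rw [mul_assoc, ← mul_assoc (x + q), this, mul_assoc B, ← mul_assoc]
      have c1' : B * (y + q) * (A * (x + q)) = A * B * ((x + q) * (y + q)) := by
        have : (y + q) * A = A * (y + q) := by rw [add_mul, mul_add, yA, qA]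
        have e : (y + q) * (x + q) = (x + q) * (y + q) := by
          rw [add_mul, mul_add, mul_add, add_mul, mul_add, mul_add, hxy', yq, xq]; abel
        rw [mul_assoc, ← mul_assoc (y + q), this, mul_assoc A, ← mul_assoc, i2, e]
      have c2 : A * (x + q) * F = (x + q) * (A * F) := by
        have : A * (x + q) = (x + q) * A := by rw [add_mul, mul_add, xA, qA]
        rw [this, mul_assoc]
      have c2' : B * (y + q) * E = (y + q) * (B * E) := by
        have : B * (y + q) = (y + q) * B := by rw [add_mul, mul_add, yB, qB]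
        rw [this, mul_assoc]
      have c3 : E * (B * (y + q)) = (y + q - 1) * (E * B) := by
        have e1 : B * (y + q) = (y + q) * B := by rw [add_mul, mul_add, yB, qB]
        have e2 : E * (y + q) = (y + q - 1) * E := by
          rw [mul_add, ← yE, Eq']; noncomm_ring
        rw [e1, ← mul_assoc, e2, mul_assoc]
      have c3' : F * (A * (x + q)) = (x + q - 1) * (F * A) := by
        have e1 : A * (x + q) = (x + q) * A := by rw [add_mul, mul_add, xA, qA]
        have e2 : F * (x + q) = (x + q - 1) * F := by
          rw [mul_add, ← xF, Fq']; noncomm_ring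
        rw [e1, ← mul_assoc, e2, mul_assoc]
      have exp1 : ∀ a b c d : R, (a + b) * (c + d) = a * c + a * d + (b * c + b * d) := by
        intros; noncomm_ring
      rw [exp1 (A * (x + q)) E (B * (y + q)) F, exp1 (B * (y + q)) F (A * (x + q)) E,
        c1, c1', c2, c2', c3, c3', EF]
      have r1 : (x + q) * (A * F) + (y + q - 1) * (E * B) - ((y + q) * (B * E) + (x + q - 1) * (F * A))
          = 0 := by
        have : (x + q) * (A * F) + (y + q - 1) * (E * B) -
            ((y + q) * (B * E) + (x + q - 1) * (F * A)) =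
            (x + q) * (A * F - F * A) - (y + q) * (B * E - E * B) + F * A - E * B := by
          noncomm_ring
        rw [this, ← i3]
        have : (x + q) * (A * F - F * A) - (y + q) * (A * F - F * A) + F * A - E * B =
          (x - y) * (A * F - F * A) + F * A - E * B := by noncomm_ring
        rw [this, i4]
        have : B * E - A * F + F * A - E * B = (B * E - E * B) - (A * F - F * A) := by
          noncomm_ring
        rw [this, i3, sub_self]
      have := eq_of_sub_eq_zero r1
      calc A * B * ((x + q) * (y + q)) + (x + q) * (A * F) + ((y + q - 1) * (E * B) + F * E)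
          = A * B * ((x + q) * (y + q)) + ((x + q) * (A * F) + (y + q - 1) * (E * B)) + F * E := by
            abel
        _ = _ := by rw [this]; abel
    have TX := T_Dn h cx (k + 1)
    have TY := T_Dn h cy (k + 1)
    have DXB : Dn x p T (k + 1 + 1) * B - B * Dn x p T (k + 1 + 1) = -(A * F - F * A) := by
      rw [eX]
      have : (x + q) * B = B * (x + q) := by rw [add_mul, mul_add, xB, qB]
      have e : (A * (x + q) + E) * B - B * (A * (x + q) + E) = -(B * E - E * B) +
          (A * ((x + q) * B) - B * A * (x + q)) := by noncomm_ring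
      rw [e, this, ← i3, ← i2]; noncomm_ring
    have DYA : Dn y p T (k + 1 + 1) * A - A * Dn y p T (k + 1 + 1) = -(A * F - F * A) := by
      rw [eY]
      have : (y + q) * A = A * (y + q) := by rw [add_mul, mul_add, yA, qA]
      have e : (B * (y + q) + F) * A - A * (B * (y + q) + F) = -(A * F - F * A) +
          (B * ((y + q) * A) - A * B * (y + q)) := by noncomm_ring
      rw [e, this, i2]; noncomm_ring
    have comX : Dn x p T (k + 1 + 1) * (B * T (k + 1)) - B * T (k + 1) * Dn x p T (k + 1 + 1) =
        (-(A * F - F * A) - B * A) * T (k + 1) := by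
      rw [mul_assoc B, TX, ← DXB]; noncomm_ring
    have comY : Dn y p T (k + 1 + 1) * (A * T (k + 1)) - A * T (k + 1) * Dn y p T (k + 1 + 1) =
        (-(A * F - F * A) - A * B) * T (k + 1) := by
      rw [mul_assoc A, TY, ← DYA]; noncomm_ring
    refine ⟨i2, ?_, ?_, ?_⟩
    · rw [eX, eY]; exact ii
    · rw [comX, comY, i2]
    · rw [comX]
      have e1 : (x - y) * ((-(A * F - F * A) - B * A) * T (k + 1)) =
          (-((x - y) * (A * F - F * A)) - (x - y) * (B * A)) * T (k + 1) := by noncomm_ring
      rw [e1, i4, eX, eY]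
      have e2 : (y + q) * A = A * (y + q) := by rw [add_mul, mul_add, yA, qA]
      have e3 : (x + q) * B = B * (x + q) := by rw [add_mul, mul_add, xB, qB]
      have e4 : (B * (y + q) + F) * (A * T (k + 1)) - (A * (x + q) + E) * (B * T (k + 1)) =
        (B * ((y + q) * A) + F * A - A * ((x + q) * B) - E * B) * T (k + 1) := by noncomm_ring
      rw [e4, e2, e3]
      congr 1
      have e5 : F * A - E * B = A * F - B * E := by
        have : A * F - F * A - (B * E - E * B) = 0 := by rw [i3, sub_self]
        have h9 : F * A - E * B - (A * F - B * E) = -(A * F - F * A - (B * E - E * B)) := by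
          noncomm_ring
        rw [this, neg_zero] at h9
        exact eq_of_sub_eq_zero h9
      have e6 : (x - y) * (B * A) = A * B * (x + q) - B * A * (y + q) := by
        have g1 : A * B * (x + q) = (x + q) * (A * B) := by
          rw [mul_assoc, ← e3, ← mul_assoc, mul_add, ← xA, ← qA, ← add_mul, mul_assoc]
        have g2 : B * A * (y + q) = (y + q) * (B * A) := by
          rw [mul_assoc, ← e2, ← mul_assoc, mul_add, ← yB, ← qB, ← add_mul, mul_assoc]
        rw [g1, g2, i2]; noncomm_ring
      rw [e6]
      have e7 : B * (A * (y + q)) + F * A - A * (B * (x + q)) - E * B =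
        B * A * (y + q) - A * B * (x + q) + (F * A - E * B) := by noncomm_ring
      rw [e7, e5]; noncomm_ring

theorem Dn_comm {x y : R} (h : ShiftRel p T) (cx : Cen x p T) (cy : Cen y p T)
    (hxy : Commute x y) (k : ℕ) : Commute (Dn x p T k) (Dn y p T k) :=
  (Dn_comm_main h cx cy hxy k).1

end Pool.Agent.W62.WS
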