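import Mathlib

/-!
Project WS (MP_2f3d29_nt): shift equations for the Mellin transforms of GL(n,R) Whittaker functions.
Definitions.  Size n = N+1, indices 0..N.
-/

set_option maxHeartbeats 4000000

namespace Pool.Agent.W62.WS

open MeasureTheory

/-! ### Coordinates of triangular unipotent matrices -/

/-- positions above the diagonal -/
abbrev UIdx (n : ℕ) := {p : Fin n × Fin n // p.1 < p.2}
/-- positions below the diagonal -/
abbrev LIdx (n : ℕ) := {p : Fin n × Fin n // p.2 < p.1}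

/-- upper triangular unipotent matrix with given entries -/
def umat (n : ℕ) (u : UIdx n → ℝ) : Matrix (Fin n) (Fin n) ℝ :=
  fun i j => if h : i < j then u ⟨(i, j), h⟩ else if i = j then 1 else 0

/-- lower triangular unipotent matrix with given entries -/
def lmat (n : ℕ) (u : LIdx n → ℝ) : Matrix (Fin n) (Fin n) ℝ :=
  fun i j => if h : j < i then u ⟨(i, j), h⟩ else if i = j then 1 else 0

/-! ### The objects of the problem, as in the problem file -/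

/-- the diagonal matrix `diag(y_1 ⋯ y_{n-1}, …, y_1, 1)`, `n = N+1` -/
def ydiag (N : ℕ) (y : Fin N → ℝ) : Fin (N + 1) → ℝ :=
  fun i => ∏ j : Fin N, if (j : ℕ) + (i : ℕ) < N then y j else 1

/-- the antidiagonal permutation matrix -/
def wlong (n : ℕ) : Matrix (Fin n) (Fin n) ℝ := fun i j => if j = Fin.rev i then 1 else 0

/-- `α_1 + ⋯ + α_{n-i} + ρ_1 + ⋯ + ρ_{n-i}` (here `i` is counted from 0) -/
noncomputable def expo (N : ℕ) (α : Fin (N + 1) → ℂ) (i : Fin N) : ℂ :=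
  ∑ l : Fin (N + 1), if (l : ℕ) + (i : ℕ) < N then α l + ((N : ℂ) / 2 - (l : ℕ)) else 0

/-- `g = x y k r` with `x` upper unipotent, `y` as above, `k` orthogonal, `r` nonzero -/
def IsIwasawa (N : ℕ) (g : Matrix (Fin (N + 1)) (Fin (N + 1)) ℝ) (y : Fin N → ℝ) : Prop :=
  (∀ i, 0 < y i) ∧ ∃ (x : UIdx (N + 1) → ℝ) (k : Matrix (Fin (N + 1)) (Fin (N + 1)) ℝ) (r : ℝ),
    k * k.transpose = 1 ∧ r ≠ 0 ∧ g = r • (umat (N + 1) x * Matrix.diagonal (ydiag N y) * k)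

open Classical in
/-- `I(g, α)` -/
noncomputable def IFun (N : ℕ) (α : Fin (N + 1) → ℂ)
    (g : Matrix (Fin (N + 1)) (Fin (N + 1)) ℝ) : ℂ :=
  if h : ∃ y, IsIwasawa N g y then ∏ i, ((h.choose i : ℝ) : ℂ) ^ (expo N α i) else 0

/-- `ψ(u)` -/
noncomputable def psi (N : ℕ) (u : UIdx (N + 1) → ℝ) : ℂ :=
  Complex.exp (2 * Real.pi * Complex.I *
    ((∑ i : Fin N, u ⟨(i.castSucc, i.succ), Fin.castSucc_lt_succ⟩ : ℝ) : ℂ))

/-- the integrand of Jacquet's integral -/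
noncomputable def jacInt (N : ℕ) (α : Fin (N + 1) → ℂ) (y : Fin N → ℝ)
    (u : UIdx (N + 1) → ℝ) : ℂ :=
  IFun N α (wlong (N + 1) * umat (N + 1) u * Matrix.diagonal (ydiag N y)) *
    (starRingEnd ℂ) (psi N u)

/-- the factor `∏_{j<k} Γ((1+α_j-α_k)/2) / π^{(1+α_j-α_k)/2}` -/
noncomputable def gamFac (N : ℕ) (α : Fin (N + 1) → ℂ) : ℂ :=
  ∏ j : Fin (N + 1), ∏ k : Fin (N + 1),
    if j < k then Complex.Gamma ((1 + α j - α k) / 2) / (Real.pi : ℂ) ^ ((1 + α j - α k) / 2) else 1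

/-- the completed Jacquet integral -/
noncomputable def WJac (N : ℕ) (α : Fin (N + 1) → ℂ) (y : Fin N → ℝ) : ℂ :=
  gamFac N α * ∫ u : UIdx (N + 1) → ℝ, jacInt N α y u

/-- the cone in which Jacquet's integral converges -/
def Cone (N : ℕ) (α : Fin (N + 1) → ℂ) : Prop :=
  ∑ i, α i = 0 ∧ ∀ i : Fin N, 0 < (α i.castSucc - α i.succ).re

/-- `W` is the completed Whittaker function (its values at diagonal matrices), continued to all
`α` with `∑ α_i = 0` -/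
structure IsWhittaker (N : ℕ) (W : (Fin (N + 1) → ℂ) → (Fin N → ℝ) → ℂ) : Prop where
  cone : ∀ α, Cone N α → ∀ y : Fin N → ℝ, (∀ i, 0 < y i) → W α y = WJac N α y
  entire : ∀ α γ : Fin (N + 1) → ℂ, ∑ i, α i = 0 → ∑ i, γ i = 0 → ∀ y : Fin N → ℝ, (∀ i, 0 < y i) →
    Differentiable ℂ (fun z : ℂ => W (fun i => α i + z * γ i) y)

/-- integrand of the normalized Mellin transform -/
noncomputable def melInt (N : ℕ) (W : (Fin (N + 1) → ℂ) → (Fin N → ℝ) → ℂ)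
    (α : Fin (N + 1) → ℂ) (s : Fin N → ℂ) (y : Fin N → ℝ) : ℂ :=
  W (fun i => 2 * α i) y *
    ∏ j : Fin N, (((Real.pi * y j : ℝ) : ℂ) ^ (2 * s j) /
      ((y j : ℝ) : ℂ) ^ ((1 : ℂ) + (((j : ℕ) : ℂ) + 1) * ((N : ℂ) - (j : ℕ)) / 2))

/-- absolute convergence of the Mellin integral -/
def MelConv (N : ℕ) (W : (Fin (N + 1) → ℂ) → (Fin N → ℝ) → ℂ)
    (α : Fin (N + 1) → ℂ) (s : Fin N → ℂ) : Prop :=
  IntegrableOn (melInt N W α s) {y | ∀ i, 0 < y i}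

/-- the normalized Mellin transform -/
noncomputable def Mel (N : ℕ) (W : (Fin (N + 1) → ℂ) → (Fin N → ℝ) → ℂ)
    (α : Fin (N + 1) → ℂ) (s : Fin N → ℂ) : ℂ :=
  2 ^ N * ∫ y in {y : Fin N → ℝ | ∀ i, 0 < y i}, melInt N W α s y

/-! ### Algebra -/

/-- the shift identity at the point `(a, s)`, for the subset size `j0 + 1` -/
def ShiftId (N : ℕ) (j0 : Fin N) (δ r : ℕ) (P : Fin r → MvPolynomial (Fin N ⊕ Fin (N + 1)) ℂ)
    (Sg : Fin r → Fin N → ℕ) (f : (Fin (N + 1) → ℂ) → (Fin N → ℂ) → ℂ)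
    (a : Fin (N + 1) → ℂ) (s : Fin N → ℂ) : Prop :=
  (∏ J ∈ (Finset.univ : Finset (Fin (N + 1))).powersetCard ((j0 : ℕ) + 1),
      ∏ d ∈ Finset.range δ, (s j0 - ∑ j ∈ J, a j + (d : ℂ))) * f a s =
    ∑ i, MvPolynomial.eval (Sum.elim s a) (P i) * f a (fun k => s k + (Sg i k : ℂ))

/-- noncommutative continuant of the vertices `0, …, k-1` -/
def Dn {R : Type} [Ring R] (x : R) (p T : ℕ → R) : ℕ → R
  | 0 => 1
  | 1 => x + p 0
  | (k + 2) => Dn x p T (k + 1) * (x + p (k + 1)) + Dn x p T k * T k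

/-- relations of the algebra of shift operators -/
structure ShiftRel {R : Type} [Ring R] (p T : ℕ → R) : Prop where
  pp : ∀ i j, Commute (p i) (p j)
  TT : ∀ i j, Commute (T i) (T j)
  T0 : ∀ k, T k * p k = (p k + 1) * T k
  T1 : ∀ k, T k * p (k + 1) = (p (k + 1) - 1) * T k
  Tp : ∀ k j, j ≠ k → j ≠ k + 1 → Commute (T k) (p j)

/-- commutative continuant -/
def kap {R : Type} [CommRing R] (d u : ℕ → R) : ℕ → R
  | 0 => 1
  | 1 => d 0
  | (k + 2) => kap d u (k + 1) * d (k + 1) + kap d u k * u k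

/-- `s_k` counted from 1, with `s_0 = s_{N+1} = 0` -/
noncomputable def sx {N : ℕ} (s : Fin N → ℂ) (k : ℕ) : ℂ :=
  if h : 0 < k ∧ k - 1 < N then s ⟨k - 1, h.2⟩ else 0

/-- `p_k = s_{k+1} - s_k`, vertices `k = 0, …, N` -/
noncomputable def pv {N : ℕ} (s : Fin N → ℂ) (k : ℕ) : ℂ := sx s (k + 1) - sx s k

/-- the Toda continuant as a polynomial in the shifts -/
noncomputable def kapP {N : ℕ} (x : ℂ) (s : Fin N → ℂ) (k : ℕ) : MvPolynomial (Fin N) ℂ :=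
  kap (fun k => MvPolynomial.C (x + pv s k))
    (fun k => if h : k < N then (MvPolynomial.X ⟨k, h⟩ : MvPolynomial (Fin N) ℂ) else 0) k

/-- the Toda operator applied to `f` at `s` -/
noncomputable def TodaK {N : ℕ} (x : ℂ) (f : (Fin N → ℂ) → ℂ) (s : Fin N → ℂ) : ℂ :=
  ∑ M ∈ (kapP x s (N + 1)).support,
    MvPolynomial.coeff M (kapP x s (N + 1)) * f (fun k => s k + (M k : ℂ))

def ShiftClosed {N : ℕ} (D : Set ((Fin (N + 1) → ℂ) × (Fin N → ℂ))) : Prop :=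
  ∀ a s, (a, s) ∈ D → ∀ σ : Fin N → ℕ, (a, fun k => s k + (σ k : ℂ)) ∈ D

def TodaOn {N : ℕ} (D : Set ((Fin (N + 1) → ℂ) × (Fin N → ℂ)))
    (f : (Fin (N + 1) → ℂ) → (Fin N → ℂ) → ℂ) : Prop :=
  ∀ a s, (a, s) ∈ D → ∀ x : ℂ, TodaK x (f a) s = (∏ j, (x + a j)) * f a s

/-! ### Givental functions -/

/-- the Givental kernel -/
noncomputable def kern (κ : ℝ) (n : ℕ) (ξ : Fin (n + 1) → ℝ) (τ : Fin n → ℝ) : ℝ :=
  Real.exp (-(∑ k : Fin n, Real.exp (ξ k.succ - τ k)) -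
    κ * ∑ k : Fin n, Real.exp (τ k - ξ k.castSucc))

/-- the Givental function -/
noncomputable def Phi (κ : ℝ) (β : ℕ → ℂ) : (n : ℕ) → (Fin n → ℝ) → ℂ
  | 0, _ => 1
  | (n + 1), ξ => ∫ τ : Fin n → ℝ,
      Complex.exp (β n * (((∑ i, ξ i) - ∑ i, τ i : ℝ) : ℂ)) * (kern κ n ξ τ : ℂ) * Phi κ β n τ

/-- a majorant of all `Phi 1 β` with `|Re β_i| ≤ R` -/
noncomputable def Gm (R : ℝ) : (n : ℕ) → (Fin n → ℝ) → ℝ
  | 0, _ => 1
  | (n + 1), ξ => ∫ τ : Fin n → ℝ,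
      (2 * Real.cosh (R * ((∑ i, ξ i) - ∑ i, τ i))) * kern 1 n ξ τ * Gm R n τ

/-- `ξ_0 = 0`, `ξ_{j+1} - ξ_j = η_j` -/
def xiOf (N : ℕ) (η : Fin N → ℝ) : Fin (N + 1) → ℝ :=
  fun i => ∑ j : Fin N, if (j : ℕ) < (i : ℕ) then η j else 0

/-- integrand of the Mellin transform on the slice -/
noncomputable def mgInt (N : ℕ) (β : ℕ → ℂ) (s : Fin N → ℂ) (η : Fin N → ℝ) : ℂ :=
  Phi 1 β (N + 1) (xiOf N η) * Complex.exp (∑ j, s j * (η j : ℂ))

/-- Mellin transform on the slice -/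
noncomputable def MG (N : ℕ) (β : ℕ → ℂ) (s : Fin N → ℂ) : ℂ := ∫ η : Fin N → ℝ, mgInt N β s η

/-! ### Jacquet integrals in lower triangular coordinates -/

/-- `∏_{k=1}^{n} (lower right k-minor)^{-c_k}` -/
noncomputable def Fpow (c : ℕ → ℂ) : (n : ℕ) → Matrix (Fin n) (Fin n) ℝ → ℂ
  | 0, _ => 1
  | (n + 1), M => (M.det : ℂ) ^ (-c (n + 1)) * Fpow c n (M.submatrix Fin.succ Fin.succ)

/-- sum of the entries next to the diagonal -/
def subd (m : ℕ) (u : LIdx (m + 1) → ℝ) : ℝ :=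
  ∑ i : Fin m, u ⟨(i.succ, i.castSucc), Fin.castSucc_lt_succ⟩

/-- integrand of the Jacquet integral for the character `ψ(ε ·)`, size `m+1` -/
noncomputable def jInt (ε : ℝ) (c : ℕ → ℂ) (m : ℕ) (ξ : Fin (m + 1) → ℝ)
    (u : LIdx (m + 1) → ℝ) : ℂ :=
  Fpow c m ((lmat (m + 1) u * Matrix.diagonal (fun i => Real.exp (ξ i)) *
      (lmat (m + 1) u).transpose).submatrix Fin.succ Fin.succ) *
    Complex.exp (-(2 * Real.pi * Complex.I * (ε * subd m u : ℝ)))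

noncomputable def JJ (ε : ℝ) (c : ℕ → ℂ) (m : ℕ) (ξ : Fin (m + 1) → ℝ) : ℂ :=
  ∫ u : LIdx (m + 1) → ℝ, jInt ε c m ξ u

/-- the exponents `c_k = 1/2 + β_k - β_{k-1}` -/
noncomputable def cc (β : ℕ → ℂ) (k : ℕ) : ℂ := 1 / 2 + β k - β (k - 1)

end Pool.Agent.W62.WS
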