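import Pool.Agent.W181.WH.Stm
import Pool.Agent.W62.WS.ComMem

set_option maxHeartbeats 4000000

namespace Pool.Agent.W62.WS

open Polynomial ComAlg Pool.Agent.W181.WH

/-- coefficients of a product of two monic polynomials -/
lemma mono_mul_coeff {A : Type} [CommRing A] [Nontrivial A] (k l : ℕ) (c d : ℕ → A) (h0 : c 0 = 1)
    (h0' : d 0 = 1) (hc : ∀ i, k < i → c i = 0) (hd : ∀ j, l < j → d j = 0) (i : ℕ)
    (hi : i < k + l) :
    (mono k (fun i : Fin k => c (i + 1)) * mono l (fun j : Fin l => d (j + 1))).coeff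
      (k + l - (i + 1)) =
      ∑ ab ∈ Finset.HasAntidiagonal.antidiagonal (i + 1), c ab.1 * d ab.2 := by
  classical
  have co : ∀ (k : ℕ) (c : ℕ → A), c 0 = 1 → ∀ u, u ≤ k →
      (mono k (fun i : Fin k => c (i + 1))).coeff u = c (k - u) := by
    intro k c h0 u hu
    rcases eq_or_lt_of_le hu with h | h
    · subst h
      have h1 := (mono_monic u (fun i : Fin u => c (i + 1))).coeff_natDegree
      rw [mono_natDegree] at h1
      rw [h1, Nat.sub_self, h0]
    · have := mono_coeff k (fun i : Fin k => c (i + 1)) ⟨k - 1 - u, by omega⟩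
      simp only at this
      rw [show k - 1 - (k - 1 - u) = u by omega, show k - 1 - u + 1 = k - u by omega] at this
      exact this
  have cz : ∀ (k : ℕ) (c : ℕ → A) (u : ℕ), k < u →
      (mono k (fun i : Fin k => c (i + 1))).coeff u = 0 := by
    intro k c u hu
    apply coeff_eq_zero_of_natDegree_lt
    rwa [mono_natDegree]
  rw [coeff_mul]
  rw [← Finset.sum_filter_of_ne (s := Finset.HasAntidiagonal.antidiagonal (k + l - (i + 1)))
    (p := fun x => x.1 ≤ k ∧ x.2 ≤ l)]
  · rw [← Finset.sum_filter_of_ne (s := Finset.HasAntidiagonal.antidiagonal (i + 1))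
      (p := fun x => x.1 ≤ k ∧ x.2 ≤ l)]
    · refine Finset.sum_nbij' (fun x => (k - x.1, l - x.2)) (fun x => (k - x.1, l - x.2))
        ?_ ?_ ?_ ?_ ?_
      · rintro ⟨u, v⟩ h
        simp only [Finset.mem_filter, Finset.HasAntidiagonal.mem_antidiagonal] at h ⊢
        omega
      · rintro ⟨u, v⟩ h
        simp only [Finset.mem_filter, Finset.HasAntidiagonal.mem_antidiagonal] at h ⊢
        omega
      · rintro ⟨u, v⟩ h
        simp only [Finset.mem_filter, Finset.HasAntidiagonal.mem_antidiagonal] at h ⊢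
        rw [Prod.mk.injEq]; omega
      · rintro ⟨u, v⟩ h
        simp only [Finset.mem_filter, Finset.HasAntidiagonal.mem_antidiagonal] at h ⊢
        rw [Prod.mk.injEq]; omega
      · rintro ⟨u, v⟩ h
        simp only [Finset.mem_filter, Finset.HasAntidiagonal.mem_antidiagonal] at h ⊢
        rw [co k c h0 u h.2.1, co l d h0' v h.2.2]
    · rintro ⟨a, b⟩ _ hne
      simp only at hne ⊢
      constructor
      · by_contra hh
        exact hne (by rw [hc a (by omega), zero_mul])
      · by_contra hh
        exact hne (by rw [hd b (by omega), mul_zero])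
  · rintro ⟨a, b⟩ _ hne
    simp only at hne ⊢
    constructor
    · by_contra hh
      exact hne (by rw [cz k c a (by omega), zero_mul])
    · by_contra hh
      exact hne (by rw [cz l d b (by omega), mul_zero])

theorem t_VAN : S_VAN := by
  classical
  intro k l g hk hg A _ _ c d h0 h0' hc hd
  rcases subsingleton_or_nontrivial A with hS | hS
  · exact Subsingleton.elim _ _
  obtain ⟨S1, _, f1, hf1, ξ, hξ⟩ := split k A inferInstance (mono k (fun i : Fin k => c (i + 1)))
    (mono_monic _ _) (mono_natDegree _ _)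
  have : Nontrivial S1 := hf1.nontrivial
  obtain ⟨S2, _, f2, hf2, η, hη⟩ := split l S1 inferInstance
    ((mono l (fun j : Fin l => d (j + 1))).map f1) ((mono_monic _ _).map f1)
    (by rw [(mono_monic _ _).natDegree_map, mono_natDegree])
  have : Nontrivial S2 := hf2.nontrivial
  set f : A →+* S2 := f2.comp f1 with hf
  have hinj : Function.Injective f := hf2.comp hf1
  let _ : Algebra ℂ S2 := (f.comp (algebraMap ℂ A)).toAlgebra
  let F : A →ₐ[ℂ] S2 := { f with commutes' := fun r => rfl }
  have hF : ∀ a, F a = f a := fun a => rfl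
  set α : Fin (k + l) → S2 := Fin.append (fun i => f2 (ξ i)) η with hα
  -- the product
  have hprod : ((mono k (fun i : Fin k => c (i + 1)) *
      mono l (fun j : Fin l => d (j + 1))).map f) = ∏ i, (X + C (α i)) := by
    rw [Polynomial.map_mul, hf, ← Polynomial.map_map, ← Polynomial.map_map, hξ, hη,
      Polynomial.map_prod, Fin.prod_univ_add]
    simp [hα]
  have hes : ∀ i : Fin (k + l), f (∑ ab ∈ Finset.HasAntidiagonal.antidiagonal ((i : ℕ) + 1),
      c ab.1 * d ab.2) = es α ((i : ℕ) + 1) := by
    intro i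
    rw [← mono_mul_coeff k l c d h0 h0' hc hd i i.2, ← Polynomial.coeff_map, hprod]
    have hi := i.2
    have h7 := Finset.prod_X_add_C_coeff (Finset.univ : Finset (Fin (k + l))) α
      (k := k + l - ((i : ℕ) + 1)) (by simp)
    rw [h7, Finset.card_univ, Fintype.card_fin,
      show k + l - (k + l - ((i : ℕ) + 1)) = (i : ℕ) + 1 by omega]
    rfl
  have hc1 : f (c 1) = ∑ i : Fin k, f2 (ξ i) := by
    have h1 := mono_coeff k (fun i : Fin k => c (i + 1)) ⟨0, by omega⟩
    simp only [Nat.sub_zero, zero_add] at h1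
    rw [← h1, hf, RingHom.comp_apply, ← Polynomial.coeff_map, hξ, ← map_sum]
    congr 1
    have h7 := Finset.prod_X_add_C_coeff (Finset.univ : Finset (Fin k)) ξ (k := k - 1) (by simp)
    rw [h7, Finset.card_univ, Fintype.card_fin, show k - (k - 1) = 1 by omega]
    simp [Finset.powersetCard_one]
  apply hinj
  rw [map_zero, ← hF]
  have h8 := MvPolynomial.comp_aeval (R := ℂ) (fun o : Option (Fin (k + l)) => o.elim (c 1)
        (fun i => ∑ ab ∈ Finset.HasAntidiagonal.antidiagonal ((i : ℕ) + 1), c ab.1 * d ab.2)) F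
  have h9 := congrArg (fun G : MvPolynomial (Option (Fin (k + l))) ℂ →ₐ[ℂ] S2 => G g) h8
  simp only [AlgHom.comp_apply] at h9
  rw [h9]
  have h10 := hg.2 S2 (∑ i : Fin k, f2 (ξ i)) α
  have h11 : (fun i : Option (Fin (k + l)) => F (i.elim (c 1)
        (fun i => ∑ ab ∈ Finset.HasAntidiagonal.antidiagonal ((i : ℕ) + 1), c ab.1 * d ab.2))) =
      (fun o : Option (Fin (k + l)) => o.elim (∑ i : Fin k, f2 (ξ i))
        (fun i => es α ((i : ℕ) + 1))) := by
    funext o
    cases o with
    | none => simpa [hF] using hc1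
    | some i => simpa [hF] using hes i
  rw [h11, h10]
  apply Finset.prod_eq_zero (i := Finset.univ.map (Fin.castAddEmb l))
  · rw [Finset.mem_powersetCard]
    exact ⟨Finset.subset_univ _, by simp⟩
  · rw [Finset.sum_map]
    simp [hα]

end Pool.Agent.W62.WS
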